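import Mathlib

/-!
# MP_6fbfae_gt, project FG: free topological groups (definitions)

The free topological group and the free abelian topological group of a topological space `X`
(in the sense of Markov): the free group, the free abelian group, with the finest group topology for
which the map `X → F(X)`, `X → A(X)` is continuous.
-/

set_option autoImplicit false

open scoped Topology

namespace Pool.Agent.MP6fbFG

universe u

/-- The free topological group of `X` (as a group: the free group). -/
def FTG (X : Type u) : Type u := FreeGroup X

instance (X : Type u) : Group (FTG X) := inferInstanceAs (Group (FreeGroup X))

/-- The generator of `F(X)` given by a point. -/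
def FTG.of {X : Type u} (x : X) : FTG X := FreeGroup.of x

/-- The finest group topology on the free group for which `X → F(X)` is continuous. (In Mathlib
finer topologies are smaller, so it is the infimum of all such topologies.) -/
instance FTG.instTop (X : Type u) [TopologicalSpace X] : TopologicalSpace (FTG X) :=
  sInf {t : TopologicalSpace (FTG X) |
    @IsTopologicalGroup (FTG X) t _ ∧ Continuous[_, t] (FTG.of : X → FTG X)}

/-- The free abelian topological group of `X` (as a group: the free abelian group). -/
def FTA (X : Type u) : Type u := FreeAbelianGroup X

instance (X : Type u) : AddCommGroup (FTA X) := inferInstanceAs (AddCommGroup (FreeAbelianGroup X))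

/-- The generator of `A(X)` given by a point. -/
def FTA.of {X : Type u} (x : X) : FTA X := FreeAbelianGroup.of x

/-- The finest group topology on the free abelian group for which `X → A(X)` is continuous. -/
instance FTA.instTop (X : Type u) [TopologicalSpace X] : TopologicalSpace (FTA X) :=
  sInf {t : TopologicalSpace (FTA X) |
    @IsTopologicalAddGroup (FTA X) t _ ∧ Continuous[_, t] (FTA.of : X → FTA X)}

end Pool.Agent.MP6fbFG
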