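import Mathlib
import Pool.Agent.Lib.MP_6fbfae_gt_FG.Defs

/-!
# MP_6fbfae_gt, project FG: the universal properties
-/

set_option autoImplicit false

open scoped Topology

namespace Pool.Agent.MP6fbFG

universe u v

section grp

variable (X : Type u) [TopologicalSpace X]

instance FTG.instGrp : IsTopologicalGroup (FTG X) :=
  topologicalGroup_sInf fun _ h => h.1

variable {X}

theorem FTG.continuous_of : Continuous (FTG.of : X → FTG X) :=
  continuous_sInf_rng.2 fun _ h => h.2

/-- The homomorphism of the free group given by a map of the generators. -/
def FTG.lift {H : Type v} [Group H] (f : X → H) : FTG X →* H := FreeGroup.lift f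

omit [TopologicalSpace X] in
theorem FTG.lift_of {H : Type v} [Group H] (f : X → H) (x : X) : FTG.lift f (FTG.of x) = f x :=
  FreeGroup.lift_apply_of

/-- The universal property: the extension of a continuous map to a topological group is
continuous. -/
theorem FTG.continuous_lift {H : Type v} [Group H] [TopologicalSpace H] [IsTopologicalGroup H]
    {f : X → H} (hf : Continuous f) : Continuous (FTG.lift f) := by
  refine continuous_iff_le_induced.2 (sInf_le ⟨topologicalGroup_induced (FTG.lift f), ?_⟩)
  refine continuous_induced_rng.2 ?_
  have : (FTG.lift f : FTG X → H) ∘ FTG.of = f := funext fun x => FTG.lift_of f x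
  rw [this]
  exact hf

omit [TopologicalSpace X] in
/-- Homomorphisms which agree on the generators are equal. -/
theorem FTG.hom_ext {H : Type v} [Group H] {f g : FTG X →* H}
    (h : ∀ x, f (FTG.of x) = g (FTG.of x)) : f = g :=
  FreeGroup.ext_hom f g h

end grp

section ab

variable (X : Type u) [TopologicalSpace X]

instance FTA.instGrp : IsTopologicalAddGroup (FTA X) :=
  topologicalAddGroup_sInf fun _ h => h.1

variable {X}

theorem FTA.continuous_of : Continuous (FTA.of : X → FTA X) :=
  continuous_sInf_rng.2 fun _ h => h.2

/-- The homomorphism of the free abelian group given by a map of the generators. -/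
def FTA.lift {H : Type v} [AddCommGroup H] (f : X → H) : FTA X →+ H := FreeAbelianGroup.lift f

omit [TopologicalSpace X] in
theorem FTA.lift_of {H : Type v} [AddCommGroup H] (f : X → H) (x : X) :
    FTA.lift f (FTA.of x) = f x :=
  FreeAbelianGroup.lift_apply_of f x

/-- The universal property: the extension of a continuous map to an abelian topological group is
continuous. -/
theorem FTA.continuous_lift {H : Type v} [AddCommGroup H] [TopologicalSpace H]
    [IsTopologicalAddGroup H] {f : X → H} (hf : Continuous f) : Continuous (FTA.lift f) := by
  refine continuous_iff_le_induced.2 (sInf_le ⟨topologicalAddGroup_induced (FTA.lift f), ?_⟩)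
  refine continuous_induced_rng.2 ?_
  have : (FTA.lift f : FTA X → H) ∘ FTA.of = f := funext fun x => FTA.lift_of f x
  rw [this]
  exact hf

omit [TopologicalSpace X] in
/-- Homomorphisms which agree on the generators are equal. -/
theorem FTA.hom_ext {H : Type v} [AddCommGroup H] {f g : FTA X →+ H}
    (h : ∀ x, f (FTA.of x) = g (FTA.of x)) : f = g :=
  FreeAbelianGroup.lift_ext _ _ h

end ab

end Pool.Agent.MP6fbFG
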