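import Mathlib
import Pool.Agent.Lib.MP_6fbfae_gt_FG.Basic

/-!
# MP_6fbfae_gt, project FG: algebra in the free abelian group
-/

set_option autoImplicit false

open scoped Topology BigOperators
open Filter

namespace Pool.Agent.MP6fbFG

universe u

variable {X : Type u}

/-- The number of generators in `C`, counted with multiplicity: the homomorphism `A(X) → ℤ` with
value `1` on the generators in `C` and `0` on the other ones. -/
noncomputable def ind (C : Set X) : FTA X →+ ℤ := FTA.lift (C.indicator 1)

theorem ind_of_mem {C : Set X} {x : X} (h : x ∈ C) : ind C (FTA.of x) = 1 := by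
  rw [ind, FTA.lift_of, Set.indicator_of_mem h]
  rfl

theorem ind_of_not {C : Set X} {x : X} (h : x ∉ C) : ind C (FTA.of x) = 0 := by
  rw [ind, FTA.lift_of, Set.indicator_of_notMem h]

private theorem Alg_ind_coeff (x : X) (g : FTA X) :
    ind {x} g = FreeAbelianGroup.toFinsupp (X := X) g x := by
  classical
  have h : ind {x} = (((Finsupp.applyAddHom x).comp
      (FreeAbelianGroup.toFinsupp (X := X)) : FreeAbelianGroup X →+ ℤ) : FTA X →+ ℤ) := by
    refine FTA.hom_ext fun y => ?_
    by_cases hy : y = x
    · subst hy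
      rw [ind_of_mem (Set.mem_singleton y)]
      change (1 : ℤ) = FreeAbelianGroup.toFinsupp (FreeAbelianGroup.of y) y
      simp
    · rw [ind_of_not (C := {x}) (x := y) (by simpa using hy)]
      change (0 : ℤ) = FreeAbelianGroup.toFinsupp (FreeAbelianGroup.of y) x
      simp [hy]
  rw [h]
  rfl

/-- Every element is a finite combination of generators. Proof: `FreeAbelianGroup.induction_on` (or
`FreeAbelianGroup.equivFinsupp`). -/
theorem exists_supp (g : FTA X) : ∃ s : Finset X, (∀ x, x ∉ s → ind {x} g = 0) ∧
    g = ∑ x ∈ s, ind {x} g • FTA.of x := by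
  refine ⟨(FreeAbelianGroup.toFinsupp (X := X) g).support, fun x hx => ?_, ?_⟩
  · rw [Alg_ind_coeff]
    exact Finsupp.notMem_support_iff.1 hx
  · have h := Finsupp.toFreeAbelianGroup_toFinsupp (X := X) g
    conv_lhs => rw [← h]
    rw [Finsupp.toFreeAbelianGroup, Finsupp.liftAddHom_apply, Finsupp.sum]
    refine Finset.sum_congr rfl fun x _ => ?_
    rw [Alg_ind_coeff]
    rfl

/-- The function `ind` by the multiplicities. Proof: apply `ind C` to `exists_supp`. -/
theorem ind_eq_sum (g : FTA X) : ∃ s : Finset X, (∀ x, x ∉ s → ind {x} g = 0) ∧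
    ∀ (C : Set X), ind C g = ∑ x ∈ s, C.indicator (fun x => ind {x} g) x := by
  obtain ⟨s, hs, hg⟩ := exists_supp g
  refine ⟨s, hs, fun C => ?_⟩
  conv_lhs => rw [hg]
  rw [map_sum]
  refine Finset.sum_congr rfl fun x _ => ?_
  rw [map_zsmul]
  by_cases hx : x ∈ C
  · rw [ind_of_mem hx, Set.indicator_of_mem hx, smul_eq_mul, mul_one]
  · rw [ind_of_not hx, Set.indicator_of_notMem hx, smul_zero]

/-- Divisibility by four. Proof: `t = ∑ x ∈ s, (ind {x} g / 4) • of x`. -/
theorem four_dvd {g : FTA X} (h : ∀ x, (4 : ℤ) ∣ ind {x} g) : ∃ t : FTA X, g = (4 : ℤ) • t := by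
  obtain ⟨s, -, hg⟩ := exists_supp g
  refine ⟨∑ x ∈ s, (ind {x} g / 4) • FTA.of x, ?_⟩
  rw [Finset.smul_sum]
  conv_lhs => rw [hg]
  refine Finset.sum_congr rfl fun x _ => ?_
  rw [smul_smul, Int.mul_ediv_cancel' (h x)]

theorem of_injective : Function.Injective (FTA.of : X → FTA X) := by
  intro x y h
  by_contra hne
  have h1 := congrArg (ind {x}) h
  rw [ind_of_mem (Set.mem_singleton x), ind_of_not (C := {x}) (x := y)
    (by simpa using fun e => hne e.symm)] at h1
  exact one_ne_zero h1

/-- The free abelian group has no torsion. Proof: apply `ind {x}` and `exists_supp`. -/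
theorem four_smul_eq_zero {t : FTA X} (h : (4 : ℤ) • t = 0) : t = 0 := by
  obtain ⟨s, -, ht⟩ := exists_supp t
  have h0 : ∀ x, ind {x} t = 0 := by
    intro x
    have h1 := congrArg (ind {x}) h
    rw [map_zsmul, map_zero, smul_eq_mul] at h1
    omega
  rw [ht]
  exact Finset.sum_eq_zero fun x _ => by rw [h0 x, zero_smul]

private theorem Alg_pow_smul {t : FTA X} (j : ℕ) (h : (4 : ℤ) ^ j • t = 0) : t = 0 := by
  induction j with
  | zero => simpa using h
  | succ j ih =>
    apply ih
    apply four_smul_eq_zero
    rw [smul_smul, ← pow_succ']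
    exact h

/-- The digits of zero. Proof: induction on `S` (or on a bound of `S`): let `j` be the least element
of `S` (other elements are larger). Then `of (p j) - of (q j) = - 4 • t` after division by `4 ^ j`
(`four_smul_eq_zero`), and the value of `ind {p j}` shows `p j = q j`; remove `j` from `S`. -/
theorem digits_zero {S : Finset ℕ} {p q : ℕ → X}
    (h : ∑ j ∈ S, (4 : ℤ) ^ j • (FTA.of (p j) - FTA.of (q j)) = 0) : ∀ j ∈ S, p j = q j := by
  induction S using Finset.induction_on_min with
  | empty => intro j hj; simp at hj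
  | insert a s ha ih =>
    have has : a ∉ s := fun h' => lt_irrefl a (ha a h')
    rw [Finset.sum_insert has] at h
    have h2 : ∑ j ∈ s, (4 : ℤ) ^ j • (FTA.of (p j) - FTA.of (q j)) = (4 : ℤ) ^ a • ((4 : ℤ) •
        ∑ j ∈ s, (4 : ℤ) ^ (j - (a + 1)) • (FTA.of (p j) - FTA.of (q j))) := by
      rw [Finset.smul_sum, Finset.smul_sum]
      refine Finset.sum_congr rfl fun j hj => ?_
      rw [smul_smul, smul_smul]
      congr 1
      have hlt := ha j hj
      rw [← pow_succ, ← pow_add]
      congr 1
      omega
    have hpq : p a = q a := by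
      by_contra hne
      rw [h2, ← smul_add] at h
      have h3 := congrArg (ind {p a}) (Alg_pow_smul a h)
      rw [map_add, map_sub, map_zsmul, map_zero, ind_of_mem (Set.mem_singleton (p a)),
        ind_of_not (C := {p a}) (x := q a) (by simpa using fun e => hne e.symm),
        smul_eq_mul] at h3
      omega
    rw [hpq, sub_self, smul_zero, zero_add] at h
    intro j hj
    rcases Finset.mem_insert.1 hj with rfl | hj
    · exact hpq
    · exact ih h j hj

/-- The free abelian group of the empty set is trivial. -/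
theorem subsingleton_of_empty [IsEmpty X] : Subsingleton (FTA X) := by
  have h0 : ∀ g : FTA X, g = 0 := by
    intro g
    obtain ⟨s, -, hg⟩ := exists_supp g
    rw [hg, Finset.eq_empty_of_isEmpty s, Finset.sum_empty]
  exact ⟨fun g g' => (h0 g).trans (h0 g').symm⟩

end Pool.Agent.MP6fbFG
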