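import Mathlib
import Pool.Agent.Lib.MP_6fbfae_gt_FG.Alg

/-!
# MP_6fbfae_gt, project FG: continuous pseudometrics
-/

set_option autoImplicit false

open scoped Topology BigOperators
open Filter

namespace Pool.Agent.MP6fbFG

universe u

variable {X : Type u} [TopologicalSpace X]

/-- Continuous pseudometrics. -/
structure CPM (d : X → X → ℝ) : Prop where
  zero : ∀ x, d x x = 0
  symm : ∀ x y, d x y = d y x
  tri : ∀ x y z, d x z ≤ d x y + d y z
  cont : Continuous fun z : X × X => d z.1 z.2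

theorem CPM.nonneg {d : X → X → ℝ} (h : CPM d) (x y : X) : 0 ≤ d x y := by
  have h1 := h.tri x y x
  rw [h.zero, h.symm y x] at h1
  linarith

/-- Lipschitz. -/
theorem CPM.lip {d : X → X → ℝ} (h : CPM d) (a x y : X) : |d a x - d a y| ≤ d x y := by
  have h1 := h.tri a x y
  have h2 := h.tri a y x
  rw [h.symm y x] at h2
  rw [abs_le]
  constructor <;> linarith

theorem CPM.add {d d' : X → X → ℝ} (h : CPM d) (h' : CPM d') :
    CPM fun x y => d x y + d' x y where
  zero x := by
    show d x x + d' x x = 0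
    rw [h.zero, h'.zero, add_zero]
  symm x y := by
    show d x y + d' x y = d y x + d' y x
    rw [h.symm, h'.symm]
  tri x y z := by
    have h1 := h.tri x y z
    have h2 := h'.tri x y z
    show d x z + d' x z ≤ d x y + d' x y + (d y z + d' y z)
    linarith
  cont := h.cont.add h'.cont

omit [TopologicalSpace X] in
private theorem PM_ctbl {G : Type*} [AddCommGroup G] [TopologicalSpace G]
    [IsTopologicalAddGroup G] [(𝓝 (0 : G)).IsCountablyGenerated] {W : Set G}
    (hW : W ∈ 𝓝 (0 : G)) :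
    ∃ d : G → G → ℝ, (∀ x, d x x = 0) ∧ (∀ x y, d x y = d y x) ∧
      (∀ x y z, d x z ≤ d x y + d y z) ∧ (Continuous fun z : G × G => d z.1 z.2) ∧
      ∀ x y, d x y < 1 → y - x ∈ W := by
  let _ : UniformSpace G := IsTopologicalAddGroup.rightUniformSpace G
  have _ : IsUniformAddGroup G := isUniformAddGroup_of_addCommGroup
  have _ : (uniformity G).IsCountablyGenerated :=
    IsUniformAddGroup.uniformity_countably_generated
  let _ : PseudoMetricSpace G := UniformSpace.pseudoMetricSpace G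
  have hE : {p : G × G | p.2 - p.1 ∈ W} ∈ uniformity G := by
    rw [uniformity_eq_comap_nhds_zero G]
    exact Filter.preimage_mem_comap hW
  obtain ⟨ε, hε, h⟩ := Metric.mem_uniformity_dist.1 hE
  refine ⟨fun x y => dist x y / ε, fun x => by simp, fun x y => ?_, fun x y z => ?_, ?_,
    fun x y hxy => ?_⟩
  · show dist x y / ε = dist y x / ε
    rw [dist_comm]
  · show dist x z / ε ≤ dist x y / ε + dist y z / ε
    rw [← add_div]
    exact div_le_div_of_nonneg_right (dist_triangle x y z) hε.le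
  · exact continuous_dist.div_const ε
  · have h1 : dist x y < ε := by
      have h2 : dist x y / ε < 1 := hxy
      rwa [div_lt_one hε] at h2
    exact h h1

omit [TopologicalSpace X] in
private theorem PM_metric {G : Type*} [AddCommGroup G] [t : TopologicalSpace G]
    [hG : IsTopologicalAddGroup G] {W : Set G} (hW : W ∈ 𝓝 (0 : G)) :
    ∃ d : G → G → ℝ, (∀ x, d x x = 0) ∧ (∀ x y, d x y = d y x) ∧
      (∀ x y z, d x z ≤ d x y + d y z) ∧ (Continuous fun z : G × G => d z.1 z.2) ∧
      ∀ x y, d x y < 1 → x - y ∈ W := by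
  have hex : ∀ U : {U : Set G // U ∈ 𝓝 (0 : G)}, ∃ V : {U : Set G // U ∈ 𝓝 (0 : G)},
      (∀ v ∈ V.1, ∀ w ∈ V.1, v + w ∈ U.1) ∧ ∀ v ∈ V.1, -v ∈ V.1 := by
    rintro ⟨U, hU⟩
    obtain ⟨V, hV, h⟩ := exists_nhds_zero_half hU
    have hV' : -V ∈ 𝓝 (0 : G) := neg_mem_nhds_zero G hV
    refine ⟨⟨V ∩ -V, Filter.inter_mem hV hV'⟩, fun v hv w hw => h v hv.1 w hw.1, fun v hv => ?_⟩
    exact ⟨hv.2, by simpa using hv.1⟩
  choose F hF hFneg using hex
  let M : ℕ → {U : Set G // U ∈ 𝓝 (0 : G)} := fun k => Nat.rec ⟨W, hW⟩ (fun _ U => F U) k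
  have hMs : ∀ k, M (k + 1) = F (M k) := fun k => rfl
  have hM0 : (M 0).1 = W := rfl
  have hMadd : ∀ k, ∀ v ∈ (M (k + 1)).1, ∀ w ∈ (M (k + 1)).1, v + w ∈ (M k).1 := by
    intro k
    rw [hMs]
    exact hF (M k)
  have hMneg : ∀ k, ∀ v ∈ (M (k + 1)).1, -v ∈ (M (k + 1)).1 := by
    intro k
    rw [hMs]
    exact hFneg (M k)
  have h0 : ∀ k, (0 : G) ∈ (M k).1 := fun k => mem_of_mem_nhds (M k).2
  have hanti : ∀ k, (M (k + 1)).1 ⊆ (M k).1 := by
    intro k v hv
    have := hMadd k v hv 0 (h0 (k + 1))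
    rwa [add_zero] at this
  have hanti' : Antitone fun k => (M k).1 := antitone_nat_of_succ_le hanti
  obtain ⟨sets, hsets⟩ : ∃ sets : Set (Set G), sets = Set.range fun k => (M k).1 := ⟨_, rfl⟩
  have hmem : ∀ U, U ∈ sets ↔ ∃ k, (M k).1 = U := by
    intro U
    rw [hsets]
    exact Iff.rfl
  let B : AddGroupFilterBasis G := addGroupFilterBasisOfComm sets ⟨_, (hmem _).2 ⟨0, rfl⟩⟩
    (by
      intro U U' hU hU'
      obtain ⟨k, rfl⟩ := (hmem _).1 hU
      obtain ⟨k', rfl⟩ := (hmem _).1 hU'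
      exact ⟨_, (hmem _).2 ⟨max k k', rfl⟩, fun v hv =>
        ⟨hanti' (le_max_left _ _) hv, hanti' (le_max_right _ _) hv⟩⟩)
    (by
      intro U hU
      obtain ⟨k, rfl⟩ := (hmem _).1 hU
      exact h0 k)
    (by
      intro U hU
      obtain ⟨k, rfl⟩ := (hmem _).1 hU
      refine ⟨_, (hmem _).2 ⟨k + 1, rfl⟩, ?_⟩
      rintro _ ⟨v, hv, w, hw, rfl⟩
      exact hMadd k v hv w hw)
    (by
      intro U hU
      obtain ⟨k, rfl⟩ := (hmem _).1 hU
      exact ⟨_, (hmem _).2 ⟨k + 1, rfl⟩, fun v hv => hanti k (hMneg k v hv)⟩)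
  have hB : ∀ U, U ∈ B ↔ ∃ k, (M k).1 = U := hmem
  obtain ⟨t', ht'⟩ : ∃ t' : TopologicalSpace G, t' = B.topology := ⟨_, rfl⟩
  have hgrp : @IsTopologicalAddGroup G t' _ := by
    rw [ht']
    exact B.isTopologicalAddGroup
  have hbas : (@nhds G t' 0).HasBasis (fun _ : ℕ => True) fun k => (M k).1 := by
    rw [ht']
    refine (B.nhds_zero_hasBasis).to_hasBasis ?_ ?_
    · intro U hU
      obtain ⟨k, rfl⟩ := (hB U).1 hU
      exact ⟨k, trivial, subset_rfl⟩
    · intro k _
      exact ⟨(M k).1, (hB _).2 ⟨k, rfl⟩, subset_rfl⟩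
  have hle : t ≤ t' := by
    refine le_of_nhds_le_nhds fun x => ?_
    have e1 : @nhds G t x = Filter.map (fun y => x + y) (@nhds G t 0) :=
      (@map_add_left_nhds_zero G t _ hG x).symm
    have e2 : @nhds G t' x = Filter.map (fun y => x + y) (@nhds G t' 0) :=
      (@map_add_left_nhds_zero G t' _ hgrp x).symm
    rw [e1, e2]
    refine Filter.map_mono ?_
    rw [hbas.ge_iff]
    intro k _
    exact (M k).2
  have hcg : (@nhds G t' 0).IsCountablyGenerated := hbas.isCountablyGenerated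
  obtain ⟨d, hd0, hds, hdt, hdc, hd1⟩ :=
    @PM_ctbl G _ t' hgrp hcg (M 1).1 (hbas.mem_of_mem (i := 1) trivial)
  refine ⟨d, hd0, hds, hdt, ?_, fun x y h => hanti 0 ?_⟩
  swap
  · rw [← neg_sub]
    exact hMneg 0 _ (hd1 x y h)
  have hle2 : @instTopologicalSpaceProd G G t t ≤ @instTopologicalSpaceProd G G t' t' :=
    inf_le_inf (induced_mono hle) (induced_mono hle)
  exact continuous_le_dom hle2 hdc

/-- Every neighbourhood of zero in `A(X)` contains the differences of generators which are close for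
some continuous pseudometric.

Proof. Let `𝓤` be the uniform structure of the topological group `FTA X`
(`IsTopologicalAddGroup.rightUniformSpace` or similar) and `E 0 = {z | z.1 - z.2 ∈ W}` (or
`z.2 - z.1`; take `W` symmetric) in `𝓤`. Choose symmetric `E (n + 1) ∈ 𝓤` with
`E (n + 1) ○ E (n + 1) ⊆ E n` (`comp_symm_mem_uniformity_sets`). The sets `E n` generate a uniform
structure with countable basis, coarser than the given one; `UniformSpace.pseudoMetricSpace` gives a
pseudometric for it, so `{dist < ε} ⊆ E 0` for some `ε > 0`, and `dist` is continuous for the given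
topology (it is uniformly continuous for the coarser uniform structure). Put
`d x y = dist (of x) (of y) / ε`. (Another way: a direct construction.) -/
theorem exists_cpm {W : Set (FTA X)} (hW : W ∈ 𝓝 (0 : FTA X)) :
    ∃ d : X → X → ℝ, CPM d ∧ ∀ x y, d x y < 1 → FTA.of x - FTA.of y ∈ W := by
  obtain ⟨d, hd0, hds, hdt, hdc, hd1⟩ := PM_metric hW
  refine ⟨fun x y => d (FTA.of x) (FTA.of y), ⟨fun x => hd0 _, fun x y => hds _ _,
    fun x y z => hdt _ _ _, ?_⟩, fun x y h => hd1 _ _ h⟩
  exact hdc.comp ((FTA.continuous_of.comp continuous_fst).prodMk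
    (FTA.continuous_of.comp continuous_snd))

/-- Convergence of generators. Proof: `exists_cpm`. -/
theorem tendsto_of_cpm {a : ℕ → X} {x : X}
    (h : ∀ d : X → X → ℝ, CPM d → ∀ᶠ i in atTop, d x (a i) < 1) :
    Tendsto (fun i => FTA.of (a i)) atTop (𝓝 (FTA.of x)) := by
  have h1 : Tendsto (fun i => FTA.of (a i) - FTA.of x) atTop (𝓝 0) := by
    intro W hW
    obtain ⟨d, hd, hd1⟩ := exists_cpm hW
    rw [Filter.mem_map]
    filter_upwards [h d hd] with i hi
    rw [hd.symm] at hi
    exact hd1 _ _ hi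
  have h2 := h1.add_const (FTA.of x)
  simpa using h2

/-- Convergence to zero of differences of generators. Proof: `exists_cpm`. -/
theorem tendsto_sub_of_cpm {a b : ℕ → X}
    (h : ∀ d : X → X → ℝ, CPM d → ∀ᶠ i in atTop, d (a i) (b i) < 1) :
    Tendsto (fun i => FTA.of (a i) - FTA.of (b i)) atTop (𝓝 0) := by
  intro W hW
  obtain ⟨d, hd, hd1⟩ := exists_cpm hW
  rw [Filter.mem_map]
  filter_upwards [h d hd] with i hi
  exact hd1 _ _ hi

/-- Separation. Proof: `of_injective` and `T2Space`: a neighbourhood `W` of zero does not contain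
`of x - of y`; `exists_cpm`. -/
theorem exists_cpm_ne [T2Space (FTA X)] {x y : X} (h : x ≠ y) :
    ∃ d : X → X → ℝ, CPM d ∧ 1 ≤ d x y := by
  have h1 : FTA.of x - FTA.of y ≠ 0 := fun h2 => h (of_injective (sub_eq_zero.1 h2))
  obtain ⟨d, hd, hd1⟩ := exists_cpm (X := X) (isOpen_ne.mem_nhds h1.symm)
  refine ⟨d, hd, ?_⟩
  by_contra h3
  exact hd1 x y (not_le.1 h3) rfl

/-- Separation of finitely many points. Proof: the sum of the pseudometrics of `exists_cpm_ne` for
all pairs. -/
theorem exists_cpm_finset [T2Space (FTA X)] (s : Finset X) :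
    ∃ d : X → X → ℝ, CPM d ∧ ∀ x ∈ s, ∀ y ∈ s, x ≠ y → 1 ≤ d x y := by
  classical
  have key : ∀ T : Finset (X × X), ∃ d : X → X → ℝ, CPM d ∧
      ∀ z ∈ T, z.1 ≠ z.2 → 1 ≤ d z.1 z.2 := by
    intro T
    induction T using Finset.induction_on with
    | empty =>
      exact ⟨fun _ _ => 0, ⟨fun _ => rfl, fun _ _ => rfl, fun _ _ _ => by simp,
        continuous_const⟩, fun z hz => absurd hz (Finset.notMem_empty z)⟩
    | insert z T _ ih =>
      obtain ⟨d, hd, hd1⟩ := ih
      by_cases hz : z.1 = z.2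
      · refine ⟨d, hd, fun z' hz' hne => ?_⟩
        rcases Finset.mem_insert.1 hz' with rfl | h'
        · exact absurd hz hne
        · exact hd1 z' h' hne
      · obtain ⟨d', hd', hd1'⟩ := exists_cpm_ne hz
        refine ⟨_, hd.add hd', fun z' hz' hne => ?_⟩
        rcases Finset.mem_insert.1 hz' with rfl | h'
        · have := hd.nonneg z'.1 z'.2
          show 1 ≤ d z'.1 z'.2 + d' z'.1 z'.2
          linarith
        · have := hd'.nonneg z'.1 z'.2
          have := hd1 z' h' hne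
          show 1 ≤ d z'.1 z'.2 + d' z'.1 z'.2
          linarith
  obtain ⟨d, hd, hd1⟩ := key (s ×ˢ s)
  exact ⟨d, hd, fun x hx y hy hne => hd1 (x, y) (Finset.mem_product.2 ⟨hx, hy⟩) hne⟩

end Pool.Agent.MP6fbFG
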