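import Mathlib
import Pool.Agent.Lib.MP_6fbfae_gt_FG.PM

/-!
# MP_6fbfae_gt, project FG: the number of digits is bounded
-/

set_option autoImplicit false

open scoped Topology BigOperators
open Filter

namespace Pool.Agent.MP6fbFG

universe u

variable {X : Type u} [TopologicalSpace X]

private theorem Bdd_geom (n : ℕ) : ∑ j ∈ Finset.range n, (4 : ℝ) ^ j ≤ 4 ^ n / 2 := by
  induction n with
  | zero => simp
  | succ n ih =>
    rw [Finset.sum_range_succ, pow_succ]
    have : (0 : ℝ) < 4 ^ n := by positivity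
    linarith

/-- The functionals. -/
private noncomputable def BddL (S : Finset ℕ) (p q : ℕ → X) :
    (BoundedContinuousFunction X ℝ) →L[ℝ] ℝ :=
  ∑ j ∈ S, (4 : ℝ) ^ j • (BoundedContinuousFunction.evalCLM ℝ (p j) -
    BoundedContinuousFunction.evalCLM ℝ (q j))

private theorem BddL_apply (S : Finset ℕ) (p q : ℕ → X) (f : BoundedContinuousFunction X ℝ) :
    BddL S p q f = ∑ j ∈ S, (4 : ℝ) ^ j * (f (p j) - f (q j)) := by
  simp [BddL]

private theorem BddL_lift (S : Finset ℕ) (p q : ℕ → X) (f : BoundedContinuousFunction X ℝ) :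
    FTA.lift (f : X → ℝ) (∑ j ∈ S, (4 : ℤ) ^ j • (FTA.of (p j) - FTA.of (q j))) =
      BddL S p q f := by
  rw [BddL_apply, map_sum]
  refine Finset.sum_congr rfl fun j _ => ?_
  rw [map_zsmul, map_sub, FTA.lift_of, FTA.lift_of, zsmul_eq_mul]
  push_cast
  ring

private theorem BddL_lower {S : Finset ℕ} {p q : ℕ → X} {f : BoundedContinuousFunction X ℝ}
    (h0 : ∀ x, 0 ≤ f x) (h1 : ∀ x, f x ≤ 1) {j₀ : ℕ} (hj : j₀ ∈ S) (hp : f (p j₀) = 1)
    (hq : f (q j₀) = 0) (hmax : ∀ j ∈ S, j₀ < j → p j = q j) :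
    (4 : ℝ) ^ j₀ / 2 ≤ BddL S p q f := by
  classical
  rw [BddL_apply, ← Finset.add_sum_erase S _ hj, hp, hq]
  have h2 : -∑ j ∈ Finset.range j₀, (4 : ℝ) ^ j ≤
      ∑ j ∈ S.erase j₀, (4 : ℝ) ^ j * (f (p j) - f (q j)) := by
    have h3 : ∑ j ∈ S.erase j₀, (if j < j₀ then (4 : ℝ) ^ j else 0) ≤
        ∑ j ∈ Finset.range j₀, (4 : ℝ) ^ j := by
      rw [← Finset.sum_filter]
      refine Finset.sum_le_sum_of_subset_of_nonneg ?_ fun j _ _ => by positivity
      intro j hj'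
      exact Finset.mem_range.2 (Finset.mem_filter.1 hj').2
    have h4 : ∑ j ∈ S.erase j₀, -(if j < j₀ then (4 : ℝ) ^ j else 0) ≤
        ∑ j ∈ S.erase j₀, (4 : ℝ) ^ j * (f (p j) - f (q j)) := by
      refine Finset.sum_le_sum fun j hj' => ?_
      have hne : j ≠ j₀ := (Finset.mem_erase.1 hj').1
      have hjS : j ∈ S := (Finset.mem_erase.1 hj').2
      split_ifs with hlt
      · have h5 : (0 : ℝ) < 4 ^ j := by positivity
        have h6 : -1 ≤ f (p j) - f (q j) := by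
          have := h0 (p j)
          have := h1 (q j)
          linarith
        nlinarith
      · have h7 : j₀ < j := by omega
        rw [hmax j hjS h7]
        simp
    rw [Finset.sum_neg_distrib] at h4
    linarith
  have h8 := Bdd_geom j₀
  linarith

/-- The number of digits of a convergent sequence is bounded.

Proof. For `i` let `Λ i : C_b(X, ℝ) →L[ℝ] ℝ`, `Λ i φ = ∑ j ∈ S i, 4 ^ j * (φ (p i j) - φ (q i j))`
(`BoundedContinuousFunction X ℝ`, a complete normed space). For fixed `φ` the extension `FTA.lift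
φ : FTA X →+ ℝ` is continuous (`FTA.continuous_lift`), and `Λ i φ` is its value at the `i`-th
element of the sequence, so `Λ i φ` converges and is bounded in `i`. By `banach_steinhaus` there
is `M` with `‖Λ i‖ ≤ M` for all `i`. Now let `j₀ ∈ S i` be the largest index with `p i j₀ ≠ q i
j₀`, and `d` as in `exists_cpm_ne` for `p i j₀`, `q i j₀`; let `φ y = max (1 - d (p i j₀) y) 0`,
with values in `[0, 1]`, `φ (p i j₀) = 1`, `φ (q i j₀) = 0`. Then `Λ i φ ≥ 4 ^ j₀ - ∑ j < j₀, 4 ^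
j ≥ 4 ^ j₀ / 2`, so `4 ^ j₀ ≤ 2 M`. So every index `r` with `2 M < 4 ^ r` works. (If `p i j = q i
j` for all `j ∈ S i` there is nothing to prove for `i`.) -/
theorem digits_bdd [T2Space (FTA X)] (S : ℕ → Finset ℕ) (p q : ℕ → ℕ → X) (w : FTA X)
    (h : Tendsto (fun i => ∑ j ∈ S i, (4 : ℤ) ^ j • (FTA.of (p i j) - FTA.of (q i j)))
      atTop (𝓝 w)) :
    ∃ r, ∀ i, ∀ j ∈ S i, r ≤ j → p i j = q i j := by
  classical
  have hb : ∀ f : BoundedContinuousFunction X ℝ, ∃ C, ∀ i, ‖BddL (S i) (p i) (q i) f‖ ≤ C := by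
    intro f
    have h1 : Continuous (FTA.lift (f : X → ℝ)) := FTA.continuous_lift f.continuous
    have h2 := (h1.tendsto w).comp h
    have h3 : Tendsto (fun i => BddL (S i) (p i) (q i) f) atTop
        (𝓝 (FTA.lift (f : X → ℝ) w)) := by
      refine h2.congr fun i => ?_
      exact BddL_lift (S i) (p i) (q i) f
    obtain ⟨C, hC⟩ := h3.norm.bddAbove_range
    exact ⟨C, fun i => hC ⟨i, rfl⟩⟩
  obtain ⟨M, hM⟩ := banach_steinhaus hb
  obtain ⟨r, hr⟩ := pow_unbounded_of_one_lt (2 * M) (by norm_num : (1 : ℝ) < 4)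
  refine ⟨r, fun i j hj hrj => ?_⟩
  by_contra hne
  obtain ⟨A, hA⟩ : ∃ A : Finset ℕ, A = (S i).filter fun j => p i j ≠ q i j := ⟨_, rfl⟩
  have hjA : j ∈ A := by
    rw [hA]
    exact Finset.mem_filter.2 ⟨hj, hne⟩
  have hAn : A.Nonempty := ⟨j, hjA⟩
  obtain ⟨j₀, hj₀⟩ : ∃ j₀, j₀ = A.max' hAn := ⟨_, rfl⟩
  have hj₀A : j₀ ∈ A := by
    rw [hj₀]
    exact Finset.max'_mem A hAn
  have hjj : j ≤ j₀ := by
    rw [hj₀]
    exact Finset.le_max' A j hjA
  have hj₀' : j₀ ∈ S i ∧ p i j₀ ≠ q i j₀ := by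
    rw [hA] at hj₀A
    exact Finset.mem_filter.1 hj₀A
  have hmax : ∀ k ∈ S i, j₀ < k → p i k = q i k := by
    intro k hk hlt
    by_contra hk'
    have hkA : k ∈ A := by
      rw [hA]
      exact Finset.mem_filter.2 ⟨hk, hk'⟩
    have : k ≤ j₀ := by
      rw [hj₀]
      exact Finset.le_max' A k hkA
    omega
  obtain ⟨d, hd, hd1⟩ := exists_cpm_ne hj₀'.2
  have hcont : Continuous fun y : X => max (1 - d (p i j₀) y) 0 := by
    have h1 : Continuous fun y : X => d (p i j₀) y :=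
      hd.cont.comp (Continuous.prodMk continuous_const continuous_id)
    exact (continuous_const.sub h1).max continuous_const
  have h0 : ∀ y : X, 0 ≤ max (1 - d (p i j₀) y) 0 := fun y => le_max_right _ _
  have h1 : ∀ y : X, max (1 - d (p i j₀) y) 0 ≤ 1 := by
    intro y
    refine max_le ?_ zero_le_one
    have := hd.nonneg (p i j₀) y
    linarith
  have hn : ∀ y : X, ‖max (1 - d (p i j₀) y) 0‖ ≤ 1 := by
    intro y
    rw [Real.norm_eq_abs, abs_of_nonneg (h0 y)]
    exact h1 y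
  obtain ⟨f, hf⟩ : ∃ f : BoundedContinuousFunction X ℝ,
      f = BoundedContinuousFunction.ofNormedAddCommGroup
        (fun y : X => max (1 - d (p i j₀) y) 0) hcont 1 hn := ⟨_, rfl⟩
  have hfa : ∀ y, f y = max (1 - d (p i j₀) y) 0 := by
    intro y
    rw [hf]
    rfl
  have hfn : ‖f‖ ≤ 1 := by
    rw [BoundedContinuousFunction.norm_le zero_le_one]
    intro y
    rw [hfa]
    exact hn y
  have hlow : (4 : ℝ) ^ j₀ / 2 ≤ BddL (S i) (p i) (q i) f := by
    refine BddL_lower (fun y => ?_) (fun y => ?_) hj₀'.1 ?_ ?_ hmax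
    · rw [hfa]; exact h0 y
    · rw [hfa]; exact h1 y
    · rw [hfa, hd.zero]; simp
    · rw [hfa]
      refine max_eq_right ?_
      linarith
  have hup : BddL (S i) (p i) (q i) f ≤ M := by
    have h2 : ‖BddL (S i) (p i) (q i) f‖ ≤ ‖BddL (S i) (p i) (q i)‖ * ‖f‖ :=
      ContinuousLinearMap.le_opNorm _ _
    have h3 : ‖BddL (S i) (p i) (q i)‖ * ‖f‖ ≤ M * 1 :=
      mul_le_mul (hM i) hfn (norm_nonneg _) ((norm_nonneg _).trans (hM i))
    have h4 := Real.le_norm_self (BddL (S i) (p i) (q i) f)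
    linarith
  have h5 : (4 : ℝ) ^ r ≤ 4 ^ j₀ := pow_le_pow_right₀ (by norm_num) (hrj.trans hjj)
  linarith

end Pool.Agent.MP6fbFG
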