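import Mathlib
import Pool.Agent.Lib.MP_6fbfae_gt_FG.Basic

/-!
# MP_6fbfae_gt, project FG: the neighbourhoods of zero in the free abelian topological group
-/

set_option autoImplicit false

open scoped Topology BigOperators
open Filter

namespace Pool.Agent.MP6fbFG

universe u

/-- The sums of differences of generators which are `V j`-close. -/
def WV {X : Type u} (V : ℕ → Set (X × X)) : Set (FTA X) :=
  {g | ∃ (S : Finset ℕ) (p q : ℕ → X), (∀ j ∈ S, (p j, q j) ∈ V j) ∧
    g = ∑ j ∈ S, (FTA.of (p j) - FTA.of (q j))}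

/-- In an abelian topological group every neighbourhood `W` of zero contains the finite sums of
elements of suitable neighbourhoods `N 0`, `N 1` and so on.

Proof. Choose `M 0 = W` and `M (k + 1) + M (k + 1) ⊆ M k` (`exists_nhds_zero_half`), all
containing zero, and `N j = M (j + 1)`. By induction on the number of elements, the sum over a
finite set `S` of indices `≥ k` of elements `g j ∈ N j` is in `M k`: take out the least index. -/
theorem exists_seq_nhds {G : Type*} [AddCommGroup G] [TopologicalSpace G]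
    [IsTopologicalAddGroup G] {W : Set G} (hW : W ∈ 𝓝 (0 : G)) :
    ∃ N : ℕ → Set G, (∀ j, N j ∈ 𝓝 (0 : G)) ∧
      ∀ (S : Finset ℕ) (g : ℕ → G), (∀ j ∈ S, g j ∈ N j) → ∑ j ∈ S, g j ∈ W := by
  have hex : ∀ U : {U : Set G // U ∈ 𝓝 (0 : G)}, ∃ V : {U : Set G // U ∈ 𝓝 (0 : G)},
      ∀ v ∈ V.1, ∀ w ∈ V.1, v + w ∈ U.1 := by
    rintro ⟨U, hU⟩
    obtain ⟨V, hV, h⟩ := exists_nhds_zero_half hU
    exact ⟨⟨V, hV⟩, h⟩
  choose F hF using hex
  let M : ℕ → {U : Set G // U ∈ 𝓝 (0 : G)} := fun k => Nat.rec ⟨W, hW⟩ (fun _ U => F U) k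
  have hM0 : M 0 = ⟨W, hW⟩ := rfl
  have hMs : ∀ k, M (k + 1) = F (M k) := fun k => rfl
  have hMadd : ∀ k, ∀ v ∈ (M (k + 1)).1, ∀ w ∈ (M (k + 1)).1, v + w ∈ (M k).1 := by
    intro k
    rw [hMs]
    exact hF (M k)
  have h0 : ∀ k, (0 : G) ∈ (M k).1 := fun k => mem_of_mem_nhds (M k).2
  have hanti : ∀ k, (M (k + 1)).1 ⊆ (M k).1 := by
    intro k v hv
    have := hMadd k v hv 0 (h0 (k + 1))
    rwa [add_zero] at this
  have hanti' : Antitone fun k => (M k).1 := antitone_nat_of_succ_le hanti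
  refine ⟨fun j => (M (j + 1)).1, fun j => (M (j + 1)).2, fun S g => ?_⟩
  have key : ∀ S : Finset ℕ, ∀ k, (∀ j ∈ S, k ≤ j) → (∀ j ∈ S, g j ∈ (M (j + 1)).1) →
      ∑ j ∈ S, g j ∈ (M k).1 := by
    intro S
    induction S using Finset.induction_on_min with
    | empty =>
      intro k _ _
      rw [Finset.sum_empty]
      exact h0 k
    | insert a s ha ih =>
      intro k hk hg
      have has : a ∉ s := fun h => lt_irrefl a (ha a h)
      rw [Finset.sum_insert has]
      have h1 : ∑ j ∈ s, g j ∈ (M (a + 1)).1 :=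
        ih (a + 1) (fun j hj => ha j hj) (fun j hj => hg j (Finset.mem_insert_of_mem hj))
      have h2 : g a ∈ (M (a + 1)).1 := hg a (Finset.mem_insert_self a s)
      exact hanti' (hk a (Finset.mem_insert_self a s)) (hMadd a _ h2 _ h1)
  intro hg
  have := key S 0 (fun j _ => Nat.zero_le j) hg
  rw [hM0] at this
  exact this

variable {X : Type u} [TopologicalSpace X]

omit [TopologicalSpace X] in
private theorem NB_zero [Nonempty X] (V : ℕ → Set (X × X)) : (0 : FTA X) ∈ WV V := by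
  obtain ⟨x⟩ := ‹Nonempty X›
  exact ⟨∅, fun _ => x, fun _ => x, by simp, by simp⟩

omit [TopologicalSpace X] in
private theorem NB_add {V : ℕ → Set (X × X)} {a b : FTA X}
    (ha : a ∈ WV fun j => V (2 * j) ∩ V (2 * j + 1))
    (hb : b ∈ WV fun j => V (2 * j) ∩ V (2 * j + 1)) : a + b ∈ WV V := by
  classical
  obtain ⟨S, p, q, hpq, rfl⟩ := ha
  obtain ⟨S', p', q', hpq', rfl⟩ := hb
  let P : ℕ → X := fun n => if n % 2 = 0 then p (n / 2) else p' (n / 2)
  let Q : ℕ → X := fun n => if n % 2 = 0 then q (n / 2) else q' (n / 2)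
  have e1 : ∀ j, P (2 * j) = p j := fun j => by
    show (if 2 * j % 2 = 0 then p (2 * j / 2) else p' (2 * j / 2)) = p j
    rw [if_pos (by omega), show 2 * j / 2 = j by omega]
  have e2 : ∀ j, P (2 * j + 1) = p' j := fun j => by
    show (if (2 * j + 1) % 2 = 0 then p ((2 * j + 1) / 2) else p' ((2 * j + 1) / 2)) = p' j
    rw [if_neg (by omega), show (2 * j + 1) / 2 = j by omega]
  have e3 : ∀ j, Q (2 * j) = q j := fun j => by
    show (if 2 * j % 2 = 0 then q (2 * j / 2) else q' (2 * j / 2)) = q j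
    rw [if_pos (by omega), show 2 * j / 2 = j by omega]
  have e4 : ∀ j, Q (2 * j + 1) = q' j := fun j => by
    show (if (2 * j + 1) % 2 = 0 then q ((2 * j + 1) / 2) else q' ((2 * j + 1) / 2)) = q' j
    rw [if_neg (by omega), show (2 * j + 1) / 2 = j by omega]
  have hd : Disjoint (S.image fun j => 2 * j) (S'.image fun j => 2 * j + 1) := by
    rw [Finset.disjoint_left]
    intro n hn hn'
    obtain ⟨i, -, hi⟩ := Finset.mem_image.1 hn
    obtain ⟨j, -, hj⟩ := Finset.mem_image.1 hn'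
    omega
  refine ⟨(S.image fun j => 2 * j) ∪ (S'.image fun j => 2 * j + 1), P, Q, ?_, ?_⟩
  · intro n hn
    rcases Finset.mem_union.1 hn with hn | hn
    · obtain ⟨j, hj, rfl⟩ := Finset.mem_image.1 hn
      rw [e1, e3]
      exact (hpq j hj).1
    · obtain ⟨j, hj, rfl⟩ := Finset.mem_image.1 hn
      rw [e2, e4]
      exact (hpq' j hj).2
  · rw [Finset.sum_union hd, Finset.sum_image (fun i _ j _ h => by
      have h' : 2 * i = 2 * j := h
      omega), Finset.sum_image (fun i _ j _ h => by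
      have h' : 2 * i + 1 = 2 * j + 1 := h
      omega)]
    congr 1
    · exact Finset.sum_congr rfl fun j _ => by rw [e1, e3]
    · exact Finset.sum_congr rfl fun j _ => by rw [e2, e4]

/-- For ARBITRARY neighbourhoods `V j` of the diagonal the set `WV V` is a neighbourhood of zero.

Proof. The sets `WV V` (with all `V j` neighbourhoods of the diagonal) are an
`AddGroupFilterBasis` of the abelian group `FTA X`: nonempty (`V j = univ`); `WV (V ∩ V') ⊆ WV V ∩
WV V'`; `0 ∈ WV V` (`S = ∅`); for the sum take `V' j = V (2 * j) ∩ V (2 * j + 1)` and put the two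
families at the even and the odd indices; for the negative take the flipped sets; conjugation is
trivial. The topology of this basis is a group topology
(`AddGroupFilterBasis.isTopologicalAddGroup` or similar) for which `of` is continuous: `of y - of
x ∈ WV V` if `(y, x) ∈ V 0` (`S = {0}`), and `{y | (y, x) ∈ V 0}` is a neighbourhood of `x`. So it
is one of the topologies in the infimum `FTA.instTop` (`sInf_le`), and neighbourhoods of zero for
it are neighbourhoods for `FTA.instTop`. -/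
theorem WV_mem_nhds [Nonempty X] {V : ℕ → Set (X × X)} (hV : ∀ j x, V j ∈ 𝓝 (x, x)) :
    WV V ∈ 𝓝 (0 : FTA X) := by
  obtain ⟨sets, hsets⟩ : ∃ sets : Set (Set (FTA X)), sets = {U : Set (FTA X) |
      ∃ V : ℕ → Set (X × X), (∀ j x, V j ∈ 𝓝 (x, x)) ∧ U = WV V} := ⟨_, rfl⟩
  have hmem : ∀ U, U ∈ sets ↔
      ∃ V : ℕ → Set (X × X), (∀ j x, V j ∈ 𝓝 (x, x)) ∧ U = WV V := by
    intro U
    rw [hsets]
    exact Iff.rfl
  let B : AddGroupFilterBasis (FTA X) := addGroupFilterBasisOfComm sets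
    ⟨WV fun _ => Set.univ, (hmem _).2 ⟨fun _ => Set.univ, fun _ _ => Filter.univ_mem, rfl⟩⟩
    (by
      intro U U' hU hU'
      obtain ⟨V1, h1, rfl⟩ := (hmem _).1 hU
      obtain ⟨V2, h2, rfl⟩ := (hmem _).1 hU'
      refine ⟨WV fun j => V1 j ∩ V2 j,
        (hmem _).2 ⟨_, fun j x => Filter.inter_mem (h1 j x) (h2 j x), rfl⟩, ?_⟩
      rintro g ⟨S, p, q, hpq, hg⟩
      exact ⟨⟨S, p, q, fun j hj => (hpq j hj).1, hg⟩, ⟨S, p, q, fun j hj => (hpq j hj).2, hg⟩⟩)
    (by
      intro U hU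
      obtain ⟨V1, h1, rfl⟩ := (hmem _).1 hU
      exact NB_zero V1)
    (by
      intro U hU
      obtain ⟨V1, h1, rfl⟩ := (hmem _).1 hU
      refine ⟨WV fun j => V1 (2 * j) ∩ V1 (2 * j + 1),
        (hmem _).2 ⟨_, fun j x => Filter.inter_mem (h1 _ x) (h1 _ x), rfl⟩, ?_⟩
      rintro g ⟨a, ha, b, hb, rfl⟩
      exact NB_add ha hb)
    (by
      intro U hU
      obtain ⟨V1, h1, rfl⟩ := (hmem _).1 hU
      refine ⟨WV fun j => Prod.swap ⁻¹' V1 j, (hmem _).2 ⟨_, fun j x => ?_, rfl⟩, ?_⟩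
      · have h2 : Tendsto (Prod.swap : X × X → X × X) (𝓝 (x, x)) (𝓝 (x, x)) :=
          continuous_swap.tendsto (x, x)
        exact h2 (h1 j x)
      · rintro g ⟨S, p, q, hpq, rfl⟩
        refine ⟨S, q, p, fun j hj => hpq j hj, ?_⟩
        show -(∑ j ∈ S, (FTA.of (p j) - FTA.of (q j))) = _
        rw [← Finset.sum_neg_distrib]
        exact Finset.sum_congr rfl fun j _ => neg_sub _ _)
  have hB : ∀ U, U ∈ B ↔ U ∈ sets := fun U => Iff.rfl
  have hle : FTA.instTop X ≤ B.topology := by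
    refine sInf_le ⟨B.isTopologicalAddGroup, ?_⟩
    refine @continuous_iff_continuousAt _ _ _ B.topology _ |>.2 fun x => ?_
    refine (B.nhds_hasBasis (FTA.of x)).tendsto_right_iff.2 fun U hU => ?_
    obtain ⟨V1, h1, rfl⟩ := (hmem _).1 ((hB U).1 hU)
    have h2 : Tendsto (fun y : X => (y, x)) (𝓝 x) (𝓝 (x, x)) :=
      (continuous_id.prodMk continuous_const).tendsto x
    filter_upwards [h2 (h1 0 x)] with y hy
    refine ⟨FTA.of y - FTA.of x, ⟨{0}, fun _ => y, fun _ => x, ?_, ?_⟩, ?_⟩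
    · intro j hj
      rw [Finset.mem_singleton.1 hj]
      exact hy
    · rw [Finset.sum_singleton]
    · exact add_sub_cancel (FTA.of x) (FTA.of y)
  have h3 : WV V ∈ @nhds (FTA X) B.topology 0 :=
    B.mem_nhds_zero ((hB _).2 ((hmem _).2 ⟨V, hV, rfl⟩))
  exact nhds_mono hle h3

/-- The sets `WV V` are a base at zero. Proof: `exists_seq_nhds` and
`V j = {z | of z.1 - of z.2 ∈ N j}`. -/
theorem exists_WV_subset {W : Set (FTA X)} (hW : W ∈ 𝓝 (0 : FTA X)) :
    ∃ V : ℕ → Set (X × X), (∀ j x, V j ∈ 𝓝 (x, x)) ∧ WV V ⊆ W := by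
  obtain ⟨N, hN, h⟩ := exists_seq_nhds hW
  refine ⟨fun j => {z | FTA.of z.1 - FTA.of z.2 ∈ N j}, fun j x => ?_, ?_⟩
  · have h1 : Continuous fun z : X × X => FTA.of z.1 - FTA.of z.2 :=
      (FTA.continuous_of.comp continuous_fst).sub (FTA.continuous_of.comp continuous_snd)
    have h2 := h1.tendsto (x, x)
    simp only [sub_self] at h2
    exact h2 (hN j)
  · rintro g ⟨S, p, q, hpq, rfl⟩
    exact h S (fun j => FTA.of (p j) - FTA.of (q j)) hpq

end Pool.Agent.MP6fbFG
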