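import Mathlib
import Pool.Agent.Lib.MP_6fbfae_gt_FG.NB
import Pool.Agent.Lib.MP_6fbfae_gt_FG.PM

/-!
# MP_6fbfae_gt, project FG: level sets which are not crossed
-/

set_option autoImplicit false

open scoped Topology BigOperators
open Filter

namespace Pool.Agent.MP6fbFG

universe u

variable {X : Type u}

/-- A level which is not crossed by a short chain.

Proof. The set of the levels `c` which are crossed by the pair `j` is contained in the closed
interval between `φ (p j)` and `φ (q j)` (`Set.uIcc`), of measure `|φ (p j) - φ (q j)|`. The sum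
of the measures is less than `1`, the measure of `(0, 1)`, so some `c` is in no such interval
(`MeasureTheory.measure_biUnion_finset_le`). -/
theorem exists_thr {ι : Type*} (S : Finset ι) (p q : ι → X) (φ : X → ℝ)
    (h : ∑ j ∈ S, |φ (p j) - φ (q j)| < 1) :
    ∃ c ∈ Set.Ioo (0 : ℝ) 1, ∀ j ∈ S, (c < φ (p j) ↔ c < φ (q j)) := by
  by_contra hcon
  push Not at hcon
  have hsub : Set.Ioo (0 : ℝ) 1 ⊆ ⋃ j ∈ S, Set.uIcc (φ (p j)) (φ (q j)) := by
    intro c hc
    obtain ⟨j, hj, h1⟩ := hcon c hc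
    refine Set.mem_iUnion₂.2 ⟨j, hj, ?_⟩
    rw [Set.mem_uIcc]
    by_cases h2 : c < φ (p j)
    · by_cases h3 : c < φ (q j)
      · rcases h1 with h1 | h1
        · exact absurd h3 (not_lt.2 h1.2)
        · exact absurd h2 (not_lt.2 h1.1)
      · exact Or.inr ⟨not_lt.1 h3, h2.le⟩
    · by_cases h3 : c < φ (q j)
      · exact Or.inl ⟨not_lt.1 h2, h3.le⟩
      · rcases h1 with h1 | h1
        · exact absurd h1.1 h2
        · exact absurd h1.2 h3
  have h1 : (1 : ENNReal) ≤ ENNReal.ofReal (∑ j ∈ S, |φ (p j) - φ (q j)|) := by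
    calc (1 : ENNReal) = MeasureTheory.volume (Set.Ioo (0 : ℝ) 1) := by
          rw [Real.volume_Ioo]
          norm_num
      _ ≤ MeasureTheory.volume (⋃ j ∈ S, Set.uIcc (φ (p j)) (φ (q j))) :=
          MeasureTheory.measure_mono hsub
      _ ≤ ∑ j ∈ S, MeasureTheory.volume (Set.uIcc (φ (p j)) (φ (q j))) :=
          MeasureTheory.measure_biUnion_finset_le S _
      _ = ∑ j ∈ S, ENNReal.ofReal |φ (p j) - φ (q j)| := by
          refine Finset.sum_congr rfl fun j _ => ?_
          rw [Real.volume_interval, abs_sub_comm]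
      _ = ENNReal.ofReal (∑ j ∈ S, |φ (p j) - φ (q j)|) :=
          (ENNReal.ofReal_sum_of_nonneg fun j _ => abs_nonneg _).symm
  rw [ENNReal.one_le_ofReal] at h1
  linarith

/-- The elements for which every `d`-Lipschitz function has a level in `(0, 1)` such that the
number of generators above this level is zero. -/
def TH (d : X → X → ℝ) : Set (FTA X) :=
  {g | ∀ φ : X → ℝ, (∀ x y, |φ x - φ y| ≤ d x y) →
    ∃ c ∈ Set.Ioo (0 : ℝ) 1, ind {x | c < φ x} g = 0}

/-- Proof: `TH d` contains `WV V` for `V j = {z | d z.1 z.2 < (1 / 2) ^ (j + 2)}`: for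
`g = ∑ j ∈ S, (of (p j) - of (q j))` the sum of `|φ (p j) - φ (q j)|` is at most
`∑ j ∈ S, (1 / 2) ^ (j + 2) ≤ 1 / 2 < 1`; `exists_thr`; for the level `c` every term has
`ind {x | c < φ x} = 0`. `WV_mem_nhds` (the sets `V j` are neighbourhoods of the diagonal, because
`d` is continuous and zero on the diagonal). -/
theorem TH_mem [TopologicalSpace X] {d : X → X → ℝ} (hd : CPM d) : TH d ∈ 𝓝 (0 : FTA X) := by
  rcases isEmpty_or_nonempty X with hX | hX
  · haveI : Subsingleton (FTA X) := subsingleton_of_empty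
    have h1 : TH d = Set.univ := by
      refine Set.eq_univ_of_forall fun g φ _ => ⟨1 / 2, ⟨by norm_num, by norm_num⟩, ?_⟩
      rw [Subsingleton.elim g 0, map_zero]
    rw [h1]
    exact Filter.univ_mem
  have hV : ∀ (j : ℕ) (x : X),
      {z : X × X | d z.1 z.2 < (1 / 2 : ℝ) ^ (j + 2)} ∈ 𝓝 (x, x) := by
    intro j x
    refine (isOpen_lt hd.cont continuous_const).mem_nhds ?_
    change d x x < (1 / 2 : ℝ) ^ (j + 2)
    rw [hd.zero]
    positivity
  refine Filter.mem_of_superset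
    (WV_mem_nhds (V := fun j => {z : X × X | d z.1 z.2 < (1 / 2 : ℝ) ^ (j + 2)}) hV) ?_
  rintro g ⟨S, p, q, hS, rfl⟩ φ hφ
  have hsum : ∑ j ∈ S, |φ (p j) - φ (q j)| < 1 := by
    have h1 : ∑ j ∈ S, |φ (p j) - φ (q j)| ≤ ∑ j ∈ S, (1 / 2 : ℝ) ^ (j + 2) := by
      refine Finset.sum_le_sum fun j hj => (hφ _ _).trans ?_
      exact (hS j hj : d (p j) (q j) < (1 / 2 : ℝ) ^ (j + 2)).le
    have h2 : ∑ j ∈ S, (1 / 2 : ℝ) ^ (j + 2) = (1 / 4) * ∑ j ∈ S, (1 / 2 : ℝ) ^ j := by
      rw [Finset.mul_sum]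
      refine Finset.sum_congr rfl fun j _ => ?_
      ring
    have h3 : ∑ j ∈ S, (1 / 2 : ℝ) ^ j ≤ 2 :=
      (summable_geometric_two.sum_le_tsum S fun j _ => by positivity).trans_eq tsum_geometric_two
    linarith
  obtain ⟨c, hc, h⟩ := exists_thr S p q φ hsum
  refine ⟨c, hc, ?_⟩
  rw [map_sum]
  refine Finset.sum_eq_zero fun j hj => ?_
  rw [map_sub]
  by_cases h1 : c < φ (p j)
  · rw [ind_of_mem (C := {x | c < φ x}) h1, ind_of_mem (C := {x | c < φ x}) ((h j hj).1 h1),
      sub_self]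
  · rw [ind_of_not (C := {x | c < φ x}) h1,
      ind_of_not (C := {x | c < φ x}) (fun h2 => h1 ((h j hj).2 h2)), sub_self]

end Pool.Agent.MP6fbFG
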