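import Mathlib
import Pool.Agent.Lib.MP_6fbfae_gt_FG.Thr

/-!
# MP_6fbfae_gt, project FG: the last digit: residues
-/

set_option autoImplicit false

open scoped Topology BigOperators
open Filter

namespace Pool.Agent.MP6fbFG

universe u

variable {X : Type u} [TopologicalSpace X]

/-- The level set around `x` sees exactly one of the points `a i`, `b i`. -/
private theorem dig_key [T2Space (FTA X)] {a b : ℕ → X} {t : ℕ → FTA X} {w : FTA X}
    (h : Tendsto (fun i => FTA.of (a i) - FTA.of (b i) + (4 : ℤ) • t i) atTop (𝓝 w)) {x : X}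
    (hx : ¬ (4 : ℤ) ∣ ind {x} w) (d : X → X → ℝ) (hd : CPM d) :
    ∀ᶠ i in atTop, ((4 : ℤ) ∣ ind {x} w - 1 ∧ d x (a i) < 1) ∨
      ((4 : ℤ) ∣ ind {x} w + 1 ∧ d x (b i) < 1) := by
  classical
  obtain ⟨s, hs1, hs2⟩ := ind_eq_sum w
  have hxs : x ∈ s := by
    by_contra hc
    exact hx (by rw [hs1 x hc]; exact dvd_zero _)
  obtain ⟨d₀, hd₀, hs0⟩ := exists_cpm_finset s
  have hd₁ := hd.add hd₀
  have hg : Tendsto (fun i => FTA.of (a i) - FTA.of (b i) + (4 : ℤ) • t i - w) atTop (𝓝 0) := by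
    have := h.sub_const w
    rwa [sub_self] at this
  filter_upwards [hg.eventually (TH_mem hd₁)] with i hi
  obtain ⟨c, hc, hC⟩ := hi (fun y => 1 - (d x y + d₀ x y)) (fun y z => by
    have h1 := hd₁.lip x z y
    have h2 : (1 - (d x y + d₀ x y)) - (1 - (d x z + d₀ x z)) =
        (d x z + d₀ x z) - (d x y + d₀ x y) := by ring
    rw [h2]
    refine h1.trans (le_of_eq ?_)
    exact hd₁.symm z y)
  have hw : ind {y | c < 1 - (d x y + d₀ x y)} w = ind {x} w := by
    rw [hs2]
    rw [Finset.sum_eq_single x]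
    · rw [Set.indicator_of_mem]
      show c < 1 - (d x x + d₀ x x)
      rw [hd.zero, hd₀.zero]
      linarith [hc.2]
    · intro y hy hyx
      rw [Set.indicator_of_notMem]
      intro hy2
      have h3 : c < 1 - (d x y + d₀ x y) := hy2
      have h4 := hs0 x hxs y hy (Ne.symm hyx)
      have h5 := hd.nonneg x y
      linarith [hc.1]
    · intro h3
      exact absurd hxs h3
  rw [map_sub, map_add, map_sub, map_zsmul, hw, smul_eq_mul] at hC
  have hlt : ∀ y, y ∈ {y | c < 1 - (d x y + d₀ x y)} → d x y < 1 := by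
    intro y hy
    have h3 : c < 1 - (d x y + d₀ x y) := hy
    have h5 := hd₀.nonneg x y
    linarith [hc.1]
  by_cases ha : a i ∈ {y | c < 1 - (d x y + d₀ x y)}
  · by_cases hb : b i ∈ {y | c < 1 - (d x y + d₀ x y)}
    · exfalso
      rw [ind_of_mem ha, ind_of_mem hb] at hC
      apply hx
      omega
    · rw [ind_of_mem ha, ind_of_not hb] at hC
      refine Or.inl ⟨?_, hlt _ ha⟩
      omega
  · by_cases hb : b i ∈ {y | c < 1 - (d x y + d₀ x y)}
    · rw [ind_of_not ha, ind_of_mem hb] at hC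
      refine Or.inr ⟨?_, hlt _ hb⟩
      omega
    · exfalso
      rw [ind_of_not ha, ind_of_not hb] at hC
      apply hx
      omega

/-- The residues modulo four of the limit.

Proof. Let `g i = of (a i) - of (b i) + 4 t i - w → 0`, let `s` be as in `ind_eq_sum` for `w`,
with `x` inserted, and `d₀` as in `exists_cpm_finset` for it. Let `d` be any continuous
pseudometric, `d₁ = d + d₀`. Eventually `g i ∈ TH d₁` (`TH_mem`). Take `φ y = 1 - d₁ x y`: there
is `c ∈ (0, 1)` with `ind C (g i) = 0` for `C = {y | c < φ y}`. The only point of `s` in `C` is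
`x`, so `ind C w = ind {x} w`, and `ind {x} w = [a i ∈ C] - [b i ∈ C] + 4 ind C (t i)`. As `ind
{x} w` is not divisible by four, exactly one of `a i`, `b i` is in `C`: if the residue is `1` it
is `a i` and `d x (a i) ≤ d₁ x (a i) < 1 - c < 1`; if the residue is `3` it is `b i`. So the
residue is `1` or `3` (take any `d`), and `tendsto_of_cpm` applies. -/
theorem residue [T2Space (FTA X)] {a b : ℕ → X} {t : ℕ → FTA X} {w : FTA X}
    (h : Tendsto (fun i => FTA.of (a i) - FTA.of (b i) + (4 : ℤ) • t i) atTop (𝓝 w)) {x : X}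
    (hx : ¬ (4 : ℤ) ∣ ind {x} w) :
    ((4 : ℤ) ∣ ind {x} w - 1 ∧ Tendsto (fun i => FTA.of (a i)) atTop (𝓝 (FTA.of x))) ∨
    ((4 : ℤ) ∣ ind {x} w + 1 ∧ Tendsto (fun i => FTA.of (b i)) atTop (𝓝 (FTA.of x))) := by
  have key := dig_key h hx
  have h0 : CPM (fun _ _ : X => (0 : ℝ)) :=
    ⟨fun _ => rfl, fun _ _ => rfl, fun _ _ _ => by simp, continuous_const⟩
  obtain ⟨i, hi⟩ := (key _ h0).exists
  rcases hi with ⟨h1, -⟩ | ⟨h1, -⟩
  · refine Or.inl ⟨h1, tendsto_of_cpm fun d hd => ?_⟩
    filter_upwards [key d hd] with j hj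
    rcases hj with ⟨-, h2⟩ | ⟨h2, -⟩
    · exact h2
    · exfalso
      omega
  · refine Or.inr ⟨h1, tendsto_of_cpm fun d hd => ?_⟩
    filter_upwards [key d hd] with j hj
    rcases hj with ⟨h2, -⟩ | ⟨-, h2⟩
    · exfalso
      omega
    · exact h2

/-- The degree. Proof: eventually `g i ∈ TH 0` (or use that `ind univ : A(X) → ℤ` is continuous,
`FTA.continuous_lift`): for `φ = 2` the level set is `univ`, and `ind univ (g i) = 0`, so
`ind univ w = 4 ind univ (t i)`. -/
theorem degree {a b : ℕ → X} {t : ℕ → FTA X} {w : FTA X}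
    (h : Tendsto (fun i => FTA.of (a i) - FTA.of (b i) + (4 : ℤ) • t i) atTop (𝓝 w)) :
    (4 : ℤ) ∣ ind Set.univ w := by
  have hc : Continuous (ind (Set.univ : Set X)) := by
    refine FTA.continuous_lift ?_
    rw [Set.indicator_univ]
    exact continuous_one
  have h1 := (hc.tendsto w).comp h
  have h2 : ∀ᶠ i in atTop, ind (Set.univ : Set X)
      (FTA.of (a i) - FTA.of (b i) + (4 : ℤ) • t i) = ind Set.univ w :=
    h1.eventually (show ∀ᶠ z in 𝓝 (ind (Set.univ : Set X) w), z = ind Set.univ w by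
      rw [nhds_discrete]
      exact rfl)
  obtain ⟨i, hi⟩ := h2.exists
  rw [← hi, map_add, map_sub, map_zsmul, ind_of_mem (Set.mem_univ _),
    ind_of_mem (Set.mem_univ _), sub_self, zero_add, smul_eq_mul]
  exact dvd_mul_right _ _

/-- The case of zero residues.

Proof. `tendsto_sub_of_cpm`: let `d` be a continuous pseudometric. Eventually `g i = of (a i) - of
(b i) + 4 t i - w ∈ TH d`. If `1 ≤ d (a i) (b i)`, take `φ y = 1 - d (a i) y`: for the level `c ∈
(0, 1)` the set `C = {y | c < φ y}` contains `a i` and not `b i`, so `1 + 4 ind C (t i) = ind C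
w`, and `ind C w` is divisible by four (`ind_eq_sum`): contradiction. -/
theorem zero_case {a b : ℕ → X} {t : ℕ → FTA X} {w : FTA X}
    (h : Tendsto (fun i => FTA.of (a i) - FTA.of (b i) + (4 : ℤ) • t i) atTop (𝓝 w))
    (hw : ∀ x, (4 : ℤ) ∣ ind {x} w) :
    Tendsto (fun i => FTA.of (a i) - FTA.of (b i)) atTop (𝓝 0) := by
  refine tendsto_sub_of_cpm fun d hd => ?_
  have hg : Tendsto (fun i => FTA.of (a i) - FTA.of (b i) + (4 : ℤ) • t i - w) atTop (𝓝 0) := by
    have := h.sub_const w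
    rwa [sub_self] at this
  obtain ⟨s, -, hs2⟩ := ind_eq_sum w
  have hdvd : ∀ C : Set X, (4 : ℤ) ∣ ind C w := by
    intro C
    rw [hs2]
    refine Finset.dvd_sum fun y _ => ?_
    by_cases hy : y ∈ C
    · rw [Set.indicator_of_mem hy]
      exact hw y
    · rw [Set.indicator_of_notMem hy]
      exact dvd_zero _
  filter_upwards [hg.eventually (TH_mem hd)] with i hi
  by_contra hcon
  rw [not_lt] at hcon
  obtain ⟨c, hc, hC⟩ := hi (fun y => 1 - d (a i) y) (fun y z => by
    have h1 := hd.lip (a i) z y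
    have h2 : (1 - d (a i) y) - (1 - d (a i) z) = d (a i) z - d (a i) y := by ring
    rw [h2]
    exact h1.trans (le_of_eq (hd.symm z y)))
  have ha : a i ∈ {y | c < 1 - d (a i) y} := by
    show c < 1 - d (a i) (a i)
    rw [hd.zero]
    linarith [hc.2]
  have hb : b i ∉ {y | c < 1 - d (a i) y} := by
    intro hb
    have h3 : c < 1 - d (a i) (b i) := hb
    linarith [hc.1]
  have h4 := hdvd {y | c < 1 - d (a i) y}
  rw [map_sub, map_add, map_sub, map_zsmul, ind_of_mem ha, ind_of_not hb, smul_eq_mul] at hC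
  omega

end Pool.Agent.MP6fbFG
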