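import Mathlib
import Pool.Agent.Lib.MP_6fbfae_gt_FG.Dig

/-!
# MP_6fbfae_gt, project FG: the last digit converges
-/

set_option autoImplicit false

open scoped Topology BigOperators
open Filter

namespace Pool.Agent.MP6fbFG

universe u

variable {X : Type u} [TopologicalSpace X]

private theorem dig2_other [T2Space (FTA X)] {w : FTA X} (hw : (4 : ℤ) ∣ ind Set.univ w)
    {x : X} (hx : ¬ (4 : ℤ) ∣ ind {x} w) : ∃ y, y ≠ x ∧ ¬ (4 : ℤ) ∣ ind {y} w := by
  classical
  by_contra hcon
  push Not at hcon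
  obtain ⟨s, hs1, hs2⟩ := ind_eq_sum w
  have hxs : x ∈ s := by
    by_contra hc
    exact hx (by rw [hs1 x hc]; exact dvd_zero _)
  rw [hs2] at hw
  rw [← Finset.add_sum_erase s _ hxs, Set.indicator_of_mem (Set.mem_univ x)] at hw
  have h1 : (4 : ℤ) ∣ ∑ y ∈ s.erase x, Set.indicator Set.univ (fun x => ind {x} w) y := by
    refine Finset.dvd_sum fun y hy => ?_
    rw [Set.indicator_of_mem (Set.mem_univ y)]
    exact hcon y (Finset.ne_of_mem_erase hy)
  exact hx ((dvd_add_left h1).1 hw)

private theorem dig2_fin [T2Space (FTA X)] {a b : ℕ → X} {t : ℕ → FTA X} {w : FTA X}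
    (h : Tendsto (fun i => FTA.of (a i) - FTA.of (b i) + (4 : ℤ) • t i) atTop (𝓝 w)) {x y : X}
    (hxy : x ≠ y) (hx : (4 : ℤ) ∣ ind {x} w - 1)
    (hx' : Tendsto (fun i => FTA.of (a i)) atTop (𝓝 (FTA.of x)))
    (hy : (4 : ℤ) ∣ ind {y} w + 1)
    (hy' : Tendsto (fun i => FTA.of (b i)) atTop (𝓝 (FTA.of y))) :
    ∃ x y : X, Tendsto (fun i => FTA.of (a i) - FTA.of (b i)) atTop (𝓝 (FTA.of x - FTA.of y)) ∧
      ∃ t' : FTA X, w = FTA.of x - FTA.of y + (4 : ℤ) • t' := by
  refine ⟨x, y, hx'.sub hy', ?_⟩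
  obtain ⟨t', ht'⟩ := four_dvd (g := w - (FTA.of x - FTA.of y)) (fun z => by
    rw [map_sub, map_sub]
    by_cases hzx : z = x
    · subst hzx
      rw [ind_of_mem (Set.mem_singleton z), ind_of_not (C := {z}) (x := y)
        (fun e => hxy (Set.mem_singleton_iff.1 e).symm), sub_zero]
      exact hx
    · by_cases hzy : z = y
      · subst hzy
        rw [ind_of_mem (Set.mem_singleton z), ind_of_not (C := {z}) (x := x)
          (fun e => hxy (Set.mem_singleton_iff.1 e)), zero_sub, sub_neg_eq_add]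
        exact hy
      · rw [ind_of_not (C := {z}) (x := x) (fun e => hzx (Set.mem_singleton_iff.1 e).symm),
          ind_of_not (C := {z}) (x := y) (fun e => hzy (Set.mem_singleton_iff.1 e).symm),
          sub_zero, sub_zero]
        by_contra hz
        rcases residue h hz with ⟨-, h2⟩ | ⟨-, h2⟩
        · exact hzx (of_injective (tendsto_nhds_unique h2 hx'))
        · exact hzy (of_injective (tendsto_nhds_unique h2 hy')))
  refine ⟨t', ?_⟩
  rw [← ht']
  abel

/-- The last digit converges.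

Proof. Let `P` be the set of the points `x` with residue `1`, `N` with residue `3` of `ind {x} w`
modulo four. By `residue` there are no other nonzero residues, and `P` and `N` have at most one
element (uniqueness of limits and `of_injective`). By `degree` and `ind_eq_sum` (`C = univ`) the
cardinalities are congruent modulo four, so equal. If both are empty use `zero_case` and
`four_dvd`, with `x = y = a 0`. Otherwise `P = {x}`, `N = {y}`, `x ≠ y`, and `of (a i) → of x`,
`of (b i) → of y`; all coefficients of `w - (of x - of y)` are divisible by four, so `four_dvd`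
applies. -/
theorem digit [T2Space (FTA X)] (a b : ℕ → X) (t : ℕ → FTA X) (w : FTA X)
    (h : Tendsto (fun i => FTA.of (a i) - FTA.of (b i) + (4 : ℤ) • t i) atTop (𝓝 w)) :
    ∃ x y : X, Tendsto (fun i => FTA.of (a i) - FTA.of (b i)) atTop (𝓝 (FTA.of x - FTA.of y)) ∧
      ∃ t' : FTA X, w = FTA.of x - FTA.of y + (4 : ℤ) • t' := by
  by_cases h0 : ∀ x, (4 : ℤ) ∣ ind {x} w
  · obtain ⟨t', ht'⟩ := four_dvd h0
    refine ⟨a 0, a 0, ?_, t', ?_⟩
    · rw [sub_self]
      exact zero_case h h0
    · rw [sub_self, zero_add]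
      exact ht'
  · push Not at h0
    obtain ⟨x, hx⟩ := h0
    obtain ⟨y, hyx, hy⟩ := dig2_other (degree h) hx
    rcases residue h hx with ⟨h1, h2⟩ | ⟨h1, h2⟩
    · rcases residue h hy with ⟨h3, h4⟩ | ⟨h3, h4⟩
      · exact absurd (of_injective (tendsto_nhds_unique h4 h2)) hyx
      · exact dig2_fin h (Ne.symm hyx) h1 h2 h3 h4
    · rcases residue h hy with ⟨h3, h4⟩ | ⟨h3, h4⟩
      · exact dig2_fin h hyx h3 h4 h1 h2
      · exact absurd (of_injective (tendsto_nhds_unique h4 h2)) hyx

end Pool.Agent.MP6fbFG
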