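import Mathlib
import Pool.Agent.Lib.MP_6fbfae_gt_FG.Alg
import Pool.Agent.Lib.MP_6fbfae_gt_FG.NB

/-!
# MP_6fbfae_gt, project FG: splitting of chains
-/

set_option autoImplicit false

open scoped Topology BigOperators
open Filter

namespace Pool.Agent.MP6fbFG

universe u

variable {X : Type u}

private theorem Split_upd {ι : Type*} [DecidableEq ι] (J : Finset ι) (p q : ι → X) (i : ι) (a : X)
    (hi : i ∈ J) :
    ∑ k ∈ J, (FTA.of (Function.update p i a k) - FTA.of (q k)) =
      ∑ k ∈ J, (FTA.of (p k) - FTA.of (q k)) + (FTA.of a - FTA.of (p i)) := by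
  rw [← Finset.add_sum_erase J (fun k => FTA.of (Function.update p i a k) - FTA.of (q k)) hi,
    ← Finset.add_sum_erase J (fun k => FTA.of (p k) - FTA.of (q k)) hi]
  have h : ∑ k ∈ J.erase i, (FTA.of (Function.update p i a k) - FTA.of (q k)) =
      ∑ k ∈ J.erase i, (FTA.of (p k) - FTA.of (q k)) := by
    refine Finset.sum_congr rfl fun k hk => ?_
    rw [Function.update_of_ne (Finset.ne_of_mem_erase hk)]
  rw [h, Function.update_self]
  abel

private theorem Split_upd' {ι : Type*} [DecidableEq ι] (J : Finset ι) (p q : ι → X) (i : ι) (a : X)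
    (hi : i ∉ J) :
    ∑ k ∈ J, (FTA.of (Function.update p i a k) - FTA.of (q k)) =
      ∑ k ∈ J, (FTA.of (p k) - FTA.of (q k)) := by
  refine Finset.sum_congr rfl fun k hk => ?_
  have hne : k ≠ i := fun e => hi (by rw [← e]; exact hk)
  rw [Function.update_of_ne hne]

private theorem Split_zero {t : FTA X} (h : (2 : ℤ) • t = 0) : t = 0 := by
  apply four_smul_eq_zero
  have h4 : (4 : ℤ) • t = (2 : ℤ) • ((2 : ℤ) • t) := by rw [smul_smul]; norm_num
  rw [h4, h, smul_zero]

/-- If a sum of differences of generators is twice an element `t`, then a partial sum is `t`.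

Proof. Induction on the number of elements of `S`, for all `p`, `q`, `t`. If `S = ∅` then `2 t =
0`, so `t = 0` (apply `ind {x}` and `exists_supp`). If `p j = q j` for some `j ∈ S`, omit `j`.
Otherwise let `i ∈ S` and `x = p i`. The coefficient of `x` (`ind {x}`) of the sum is even, and
the term `i` contributes `1` to it, so there is `j ∈ S`, `j ≠ i`, with an odd contribution: `q j =
x` or `p j = x` (not both). Case `q j = x`: replace `p i` by `p j` and remove `j` (the sum does
not change); if the set `J` for the new family contains `i`, add `j` to it, otherwise keep it.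
Case `p j = x`: the terms `i` and `j` are `(x - q i) + (x - q j) = 2 (x - q j) + (q j - q i)`;
replace `p i` by `q j`, remove `j` and replace `t` by `t - (x - q j)`; if the set `J` for the new
family contains `i`, keep it (then `t = (t - (x - q j)) - (q j - q i) + (x - q i)`), otherwise add
`j`. -/
theorem split_two {ι : Type*} [DecidableEq ι] (S : Finset ι) (p q : ι → X) (t : FTA X)
    (h : ∑ j ∈ S, (FTA.of (p j) - FTA.of (q j)) = (2 : ℤ) • t) :
    ∃ J ⊆ S, ∑ j ∈ J, (FTA.of (p j) - FTA.of (q j)) = t := by
  classical
  induction hn : S.card generalizing S p q t with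
  | zero =>
    have hS : S = ∅ := Finset.card_eq_zero.1 hn
    subst hS
    rw [Finset.sum_empty] at h
    exact ⟨∅, le_refl _, by rw [Finset.sum_empty]; exact (Split_zero h.symm).symm⟩
  | succ n ih =>
    obtain ⟨i, hi⟩ : S.Nonempty := Finset.card_pos.1 (by omega)
    by_cases hpq : p i = q i
    · have hc : (S.erase i).card = n := by rw [Finset.card_erase_of_mem hi]; omega
      have hs : ∑ j ∈ S.erase i, (FTA.of (p j) - FTA.of (q j)) = (2 : ℤ) • t := by
        rw [← Finset.add_sum_erase S (fun k => FTA.of (p k) - FTA.of (q k)) hi] at h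
        simpa [hpq] using h
      obtain ⟨J, hJ, e⟩ := ih (S.erase i) p q t hs hc
      exact ⟨J, hJ.trans (Finset.erase_subset _ _), e⟩
    · obtain ⟨j, hj, hodd⟩ : ∃ j ∈ S.erase i,
          ¬ (2 : ℤ) ∣ (ind {p i} (FTA.of (p j)) - ind {p i} (FTA.of (q j))) := by
        by_contra hcon
        push Not at hcon
        have hd : (2 : ℤ) ∣ ∑ j ∈ S.erase i,
            (ind {p i} (FTA.of (p j)) - ind {p i} (FTA.of (q j))) :=
          Finset.dvd_sum fun j hj => hcon j hj
        have h1 := congrArg (ind {p i}) h
        rw [← Finset.add_sum_erase S (fun k => FTA.of (p k) - FTA.of (q k)) hi, map_add, map_sub,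
          map_sum, map_zsmul, smul_eq_mul, ind_of_mem (Set.mem_singleton (p i)),
          ind_of_not (C := {p i}) (x := q i) (by simpa using fun e => hpq e.symm)] at h1
        simp only [map_sub] at h1
        omega
      have hji : j ≠ i := Finset.ne_of_mem_erase hj
      have hjS : j ∈ S := Finset.mem_of_mem_erase hj
      have hiS' : i ∈ S.erase j := Finset.mem_erase.2 ⟨hji.symm, hi⟩
      have hc : (S.erase j).card = n := by rw [Finset.card_erase_of_mem hjS]; omega
      have hsum := Finset.add_sum_erase S (fun k => FTA.of (p k) - FTA.of (q k)) hjS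
      by_cases hpj : p j = p i
      · by_cases hqj : q j = p i
        · exfalso
          apply hodd
          rw [hpj, hqj, sub_self]
          exact dvd_zero _
        · have hs : ∑ k ∈ S.erase j, (FTA.of (Function.update p i (q j) k) - FTA.of (q k)) =
              (2 : ℤ) • (t - (FTA.of (p i) - FTA.of (q j))) := by
            rw [Split_upd _ p q i (q j) hiS', smul_sub, ← h, ← hsum, hpj, two_smul]
            abel
          obtain ⟨J, hJ, e⟩ := ih (S.erase j) (Function.update p i (q j)) q _ hs hc
          have hjJ : j ∉ J := fun hj' => (Finset.mem_erase.1 (hJ hj')).1 rfl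
          by_cases hiJ : i ∈ J
          · refine ⟨J, hJ.trans (Finset.erase_subset _ _), ?_⟩
            rw [Split_upd _ p q i (q j) hiJ] at e
            have : ∑ k ∈ J, (FTA.of (p k) - FTA.of (q k)) =
                t - (FTA.of (p i) - FTA.of (q j)) - (FTA.of (q j) - FTA.of (p i)) :=
              eq_sub_of_add_eq e
            rw [this]
            abel
          · refine ⟨insert j J, Finset.insert_subset hjS (hJ.trans (Finset.erase_subset _ _)), ?_⟩
            rw [Split_upd' _ p q i (q j) hiJ] at e
            rw [Finset.sum_insert hjJ, e, hpj]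
            abel
      · have hqj : q j = p i := by
          by_contra hqj
          apply hodd
          rw [ind_of_not (C := {p i}) (x := p j) (by simpa using hpj),
            ind_of_not (C := {p i}) (x := q j) (by simpa using hqj), sub_self]
          exact dvd_zero _
        have hs : ∑ k ∈ S.erase j, (FTA.of (Function.update p i (p j) k) - FTA.of (q k)) =
            (2 : ℤ) • t := by
          rw [Split_upd _ p q i (p j) hiS', ← h, ← hsum, hqj]
          abel
        obtain ⟨J, hJ, e⟩ := ih (S.erase j) (Function.update p i (p j)) q _ hs hc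
        have hjJ : j ∉ J := fun hj' => (Finset.mem_erase.1 (hJ hj')).1 rfl
        by_cases hiJ : i ∈ J
        · refine ⟨insert j J, Finset.insert_subset hjS (hJ.trans (Finset.erase_subset _ _)), ?_⟩
          rw [Split_upd _ p q i (p j) hiJ] at e
          rw [Finset.sum_insert hjJ, ← e, hqj]
          abel
        · refine ⟨J, hJ.trans (Finset.erase_subset _ _), ?_⟩
          rw [Split_upd' _ p q i (p j) hiJ] at e
          exact e

/-- Proof: `split_two` twice, `4 t = 2 (2 t)`. -/
theorem WV_four {V : ℕ → Set (X × X)} {t : FTA X} (h : (4 : ℤ) • t ∈ WV V) : t ∈ WV V := by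
  obtain ⟨S, p, q, hV, e⟩ := h
  have h4 : (4 : ℤ) • t = (2 : ℤ) • ((2 : ℤ) • t) := by rw [smul_smul]; norm_num
  obtain ⟨J, hJ, e1⟩ := split_two S p q ((2 : ℤ) • t) (by rw [← e, h4])
  obtain ⟨K, hK, e2⟩ := split_two J p q t e1
  exact ⟨K, p, q, fun j hj => hV j (hJ (hK hj)), e2.symm⟩

/-- Proof: `exists_WV_subset`, `WV_mem_nhds` and `WV_four`. -/
theorem tendsto_of_four [TopologicalSpace X] {t : ℕ → FTA X}
    (h : Tendsto (fun i => (4 : ℤ) • t i) atTop (𝓝 0)) : Tendsto t atTop (𝓝 0) := by
  rcases isEmpty_or_nonempty X with hX | hX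
  · have : Subsingleton (FTA X) := subsingleton_of_empty
    have h1 : t = fun _ => 0 := funext fun i => Subsingleton.elim _ _
    rw [h1]
    exact tendsto_const_nhds
  rw [Filter.tendsto_def] at h ⊢
  intro W hW
  obtain ⟨V, hV, hVW⟩ := exists_WV_subset hW
  filter_upwards [h _ (WV_mem_nhds hV)] with i hi
  exact hVW (WV_four hi)

end Pool.Agent.MP6fbFG
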