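import Mathlib
import Pool.Agent.Lib.MP_6fbfae_gt_FG.Split
import Pool.Agent.Lib.MP_6fbfae_gt_FG.Dig2

/-!
# MP_6fbfae_gt, project FG: all digits
-/

set_option autoImplicit false

open scoped Topology BigOperators
open Filter

namespace Pool.Agent.MP6fbFG

universe u

variable {X : Type u} [TopologicalSpace X]

/-- All digits converge.

Proof. Induction on `r` (for all `p`, `q`, `w`). For `r = 0` the sums are zero, so `w = 0`; take
`x = y = p 0`. Step: `∑ j ∈ range (r + 1), 4 ^ j • s j = s 0 + 4 • ∑ j ∈ range r, 4 ^ j • s (j +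
1)` (`Finset.sum_range_succ'`). By `digit` the digits `s 0` converge to `of x₀ - of y₀` and `w =
of x₀ - of y₀ + 4 • t'`; so `4 • (t i - t') → 0`, and `t i → t'` by `tendsto_of_four`. Apply the
induction hypothesis to `t i` and `t'`. -/
theorem peel [T2Space (FTA X)] (r : ℕ) (p q : ℕ → ℕ → X) (w : FTA X)
    (h : Tendsto (fun i => ∑ j ∈ Finset.range r, (4 : ℤ) ^ j • (FTA.of (p i j) - FTA.of (q i j)))
      atTop (𝓝 w)) :
    ∃ x y : ℕ → X, (∀ j < r, Tendsto (fun i => FTA.of (p i j) - FTA.of (q i j)) atTop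
      (𝓝 (FTA.of (x j) - FTA.of (y j)))) ∧
      w = ∑ j ∈ Finset.range r, (4 : ℤ) ^ j • (FTA.of (x j) - FTA.of (y j)) := by
  induction r generalizing p q w with
  | zero =>
    refine ⟨p 0, p 0, fun j hj => absurd hj (Nat.not_lt_zero j), ?_⟩
    simp only [Finset.range_zero, Finset.sum_empty] at h ⊢
    exact tendsto_nhds_unique h tendsto_const_nhds
  | succ r ih =>
    have h1 : ∀ s : ℕ → FTA X, ∑ j ∈ Finset.range (r + 1), (4 : ℤ) ^ j • s j =
        s 0 + (4 : ℤ) • ∑ j ∈ Finset.range r, (4 : ℤ) ^ j • s (j + 1) := by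
      intro s
      rw [Finset.sum_range_succ', pow_zero, one_smul, add_comm, Finset.smul_sum]
      congr 1
      refine Finset.sum_congr rfl fun j _ => ?_
      rw [pow_succ', mul_smul]
    simp only [h1] at h
    obtain ⟨x0, y0, hx, t', ht'⟩ := digit (fun i => p i 0) (fun i => q i 0)
      (fun i => ∑ j ∈ Finset.range r, (4 : ℤ) ^ j • (FTA.of (p i (j + 1)) -
        FTA.of (q i (j + 1)))) w h
    have h2 : Tendsto (fun i => (4 : ℤ) • (∑ j ∈ Finset.range r, (4 : ℤ) ^ j •
        (FTA.of (p i (j + 1)) - FTA.of (q i (j + 1))) - t')) atTop (𝓝 0) := by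
      have h3 := (h.sub_const w).sub (hx.sub_const (FTA.of x0 - FTA.of y0))
      rw [sub_self, sub_self, sub_zero] at h3
      refine h3.congr fun i => ?_
      rw [smul_sub]
      nth_rewrite 1 [ht']
      abel
    have h4 := tendsto_sub_nhds_zero_iff.1 (tendsto_of_four h2)
    obtain ⟨x, y, hxy, ht⟩ := ih (fun i j => p i (j + 1)) (fun i j => q i (j + 1)) t' h4
    obtain ⟨x1, hx0, hx1⟩ : ∃ x1 : ℕ → X, x1 0 = x0 ∧ ∀ j, x1 (j + 1) = x j :=
      ⟨fun j => Nat.casesOn j x0 x, rfl, fun _ => rfl⟩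
    obtain ⟨y1, hy0, hy1⟩ : ∃ y1 : ℕ → X, y1 0 = y0 ∧ ∀ j, y1 (j + 1) = y j :=
      ⟨fun j => Nat.casesOn j y0 y, rfl, fun _ => rfl⟩
    refine ⟨x1, y1, ?_, ?_⟩
    · intro j hj
      cases j with
      | zero =>
        rw [hx0, hy0]
        exact hx
      | succ j =>
        rw [hx1, hy1]
        exact hxy j (Nat.lt_of_succ_lt_succ hj)
    · rw [h1]
      simp only [hx0, hy0, hx1, hy1]
      rw [← ht]
      exact ht'

end Pool.Agent.MP6fbFG
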