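import Mathlib
import Pool.Agent.Lib.MP_6fbfae_gt_FG.Peel
import Pool.Agent.Lib.MP_6fbfae_gt_FG.Bdd

/-!
# MP_6fbfae_gt, project FG: the code of a set of tuples
-/

set_option autoImplicit false

open scoped Topology BigOperators
open Filter

namespace Pool.Agent.MP6fbFG

universe u

variable {X : Type u} [TopologicalSpace X]

/-- The tuple of the partial sums of the digits with index `k` modulo `n`. -/
def tup (n : ℕ) (S : Finset ℕ) (p q : ℕ → X) : Fin n → FTA X := fun k =>
  ∑ j ∈ S.filter (fun j => j % n = k.val), (FTA.of (p j) - FTA.of (q j))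

/-- The code of a set `F` of tuples. -/
def code (n : ℕ) (F : Set (Fin n → FTA X)) : Set (FTA X) :=
  {w | ∃ (S : Finset ℕ) (p q : ℕ → X),
    w = ∑ j ∈ S, (4 : ℤ) ^ j • (FTA.of (p j) - FTA.of (q j)) ∧ tup n S p q ∈ F}

/-- The sum over `S` as a sum over `range r`. -/
private theorem Code_sum {M : Type*} [AddCommMonoid M] (S : Finset ℕ) (r : ℕ) (g : ℕ → M)
    (h : ∀ j ∈ S, r ≤ j → g j = 0) :
    ∑ j ∈ Finset.range r, (if j ∈ S then g j else 0) = ∑ j ∈ S, g j := by
  rw [← Finset.sum_filter]
  refine Finset.sum_subset (fun j hj => (Finset.mem_filter.1 hj).2) (fun j hj hj' => ?_)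
  refine h j hj (not_lt.1 fun hlt => hj' ?_)
  exact Finset.mem_filter.2 ⟨Finset.mem_range.2 hlt, hj⟩

/-- The code of a sequentially closed set is sequentially closed.

Proof. Let `w i → w`, `w i = ∑ j ∈ S i, 4 ^ j • (of (p i j) - of (q i j))`, `tup n (S i) (p i) (q
i) ∈ F`. Let `r` be as in `digits_bdd`. Replace `S i` by `range r`, `p i j`, `q i j` by `p i j`,
`p i j` if `j ∉ S i`: this does not change `w i` and the tuple (for the indices `≥ r` in `S i` the
difference is zero). By `peel` the differences of the new families converge to `of (x j) - of (y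
j)` for `j < r`, and `w` is the sum of the limits; so the tuples converge to `tup n (range r) x y`
(`tendsto_pi_nhds`, `tendsto_finset_sum`), which is in `F` (`IsSeqClosed`). -/
theorem code_closed [T2Space (FTA X)] {n : ℕ} {F : Set (Fin n → FTA X)} (hF : IsSeqClosed F) :
    IsSeqClosed (code n F) := by
  intro w w0 hw hlim
  choose S p q hwS hSF using hw
  have h1 : Tendsto (fun i => ∑ j ∈ S i, (4 : ℤ) ^ j • (FTA.of (p i j) - FTA.of (q i j)))
      atTop (𝓝 w0) := by
    have e : w = fun i => ∑ j ∈ S i, (4 : ℤ) ^ j • (FTA.of (p i j) - FTA.of (q i j)) :=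
      funext hwS
    rw [e] at hlim
    exact hlim
  obtain ⟨r, hr⟩ := digits_bdd S p q w0 h1
  obtain ⟨q', hq'⟩ : ∃ q' : ℕ → ℕ → X, q' = fun i j => if j ∈ S i then q i j else p i j :=
    ⟨_, rfl⟩
  have hd : ∀ i j, FTA.of (p i j) - FTA.of (q' i j) =
      if j ∈ S i then FTA.of (p i j) - FTA.of (q i j) else 0 := by
    intro i j
    rw [hq']
    by_cases hj : j ∈ S i
    · rw [if_pos hj]
      simp only [if_pos hj]
    · rw [if_neg hj]
      simp only [if_neg hj, sub_self]
  have hz : ∀ i, ∀ j ∈ S i, r ≤ j → FTA.of (p i j) - FTA.of (q i j) = 0 := by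
    intro i j hj hrj
    rw [hr i j hj hrj, sub_self]
  have e1 : ∀ i, ∑ j ∈ Finset.range r, (4 : ℤ) ^ j • (FTA.of (p i j) - FTA.of (q' i j)) =
      ∑ j ∈ S i, (4 : ℤ) ^ j • (FTA.of (p i j) - FTA.of (q i j)) := by
    intro i
    rw [← Code_sum (S i) r (fun j => (4 : ℤ) ^ j • (FTA.of (p i j) - FTA.of (q i j)))]
    · refine Finset.sum_congr rfl fun j _ => ?_
      rw [hd i j]
      by_cases hj : j ∈ S i
      · rw [if_pos hj, if_pos hj]
      · rw [if_neg hj, if_neg hj, smul_zero]
    · intro j hj hrj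
      show (4 : ℤ) ^ j • (FTA.of (p i j) - FTA.of (q i j)) = 0
      rw [hz i j hj hrj, smul_zero]
  have e2 : ∀ i, tup n (Finset.range r) (p i) (q' i) = tup n (S i) (p i) (q i) := by
    intro i
    funext k
    unfold tup
    rw [Finset.sum_filter, Finset.sum_filter]
    rw [← Code_sum (S i) r
      (fun j => if j % n = k.val then FTA.of (p i j) - FTA.of (q i j) else 0)]
    · refine Finset.sum_congr rfl fun j _ => ?_
      rw [hd i j]
      by_cases hj : j ∈ S i
      · rw [if_pos hj, if_pos hj]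
      · rw [if_neg hj, if_neg hj, ite_self]
    · intro j hj hrj
      show (if j % n = k.val then FTA.of (p i j) - FTA.of (q i j) else 0) = 0
      rw [hz i j hj hrj, ite_self]
  have h2 : Tendsto (fun i => ∑ j ∈ Finset.range r,
      (4 : ℤ) ^ j • (FTA.of (p i j) - FTA.of (q' i j))) atTop (𝓝 w0) := by
    have e : (fun i => ∑ j ∈ Finset.range r,
        (4 : ℤ) ^ j • (FTA.of (p i j) - FTA.of (q' i j))) =
        fun i => ∑ j ∈ S i, (4 : ℤ) ^ j • (FTA.of (p i j) - FTA.of (q i j)) := funext e1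
    rw [e]
    exact h1
  obtain ⟨x, y, hxy, hw0⟩ := peel r p q' w0 h2
  refine ⟨Finset.range r, x, y, hw0, ?_⟩
  refine hF (x := fun i => tup n (Finset.range r) (p i) (q' i)) (fun i => ?_) ?_
  · show tup n (Finset.range r) (p i) (q' i) ∈ F
    rw [e2 i]
    exact hSF i
  · refine tendsto_pi_nhds.2 fun k => ?_
    refine tendsto_finsetSum _ fun j hj => ?_
    exact hxy j (Finset.mem_range.1 (Finset.mem_filter.1 hj).1)

/-- Proof: `digits_zero`: then all differences are zero and the tuple is zero. -/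
theorem zero_notMem_code {n : ℕ} {F : Set (Fin n → FTA X)} (h : (0 : Fin n → FTA X) ∉ F) :
    (0 : FTA X) ∉ code n F := by
  rintro ⟨S, p, q, h0, hF⟩
  have h1 := digits_zero h0.symm
  have h2 : tup n S p q = 0 := by
    funext k
    refine Finset.sum_eq_zero fun j hj => ?_
    rw [h1 j (Finset.mem_filter.1 hj).1, sub_self]
  rw [h2] at hF
  exact h hF

end Pool.Agent.MP6fbFG
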