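import Mathlib
import Pool.Agent.Lib.MP_6fbfae_gt_FG.Code
import Pool.Agent.Lib.MP_6fbfae_gt_FG.NB

/-!
# MP_6fbfae_gt, project FG: the neighbourhoods for the code
-/

set_option autoImplicit false

open scoped Topology BigOperators
open Filter

namespace Pool.Agent.MP6fbFG

universe u

variable {X : Type u} [TopologicalSpace X]

/-- If the code of `F` is not near zero, then `F` is not near zero.

Proof. Let `W = (code n F)ᶜ`, `N j` as in `exists_seq_nhds` for `W`, and `V j = {z | 4 ^ j • (of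
z.1 - of z.2) ∈ N j}`, neighbourhoods of the diagonal by continuity. For `k : Fin n` let `V' k m =
V (n * m + k)` and `U k = WV (V' k) ∈ 𝓝 0` (`WV_mem_nhds`). The set `Set.univ.pi U` is a
neighbourhood of `0` in `Fin n → FTA X`. If it meets `F` in `u`, then `u k = ∑ m ∈ S k, (of (p k
m) - of (q k m))` with `(p k m, q k m) ∈ V (n * m + k)`. Let `S = {j | j / n ∈ S (j % n)}` (a
finite set: the image of the pairs `(k, m)` under `(k, m) ↦ n * m + k`), `p' j = p (j % n) (j /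
n)`, `q' j = q (j % n) (j / n)`. Then `tup n S p' q' = u`, and `∑ j ∈ S, 4 ^ j • (of (p' j) - of
(q' j)) ∈ W` by the choice of `N`; but it is in `code n F`. -/
theorem nhds_of_code [Nonempty X] {n : ℕ} (hn : 0 < n) {F : Set (Fin n → FTA X)}
    (h : (code n F)ᶜ ∈ 𝓝 (0 : FTA X)) : Fᶜ ∈ 𝓝 (0 : Fin n → FTA X) := by
  classical
  obtain ⟨N, hN, hN2⟩ := exists_seq_nhds h
  obtain ⟨V, hVd⟩ : ∃ V : ℕ → Set (X × X), V = fun j =>
      {z : X × X | (4 : ℤ) ^ j • (FTA.of z.1 - FTA.of z.2) ∈ N j} := ⟨_, rfl⟩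
  have hV : ∀ j x, V j ∈ 𝓝 (x, x) := by
    intro j x
    have hc : Continuous fun z : X × X => (4 : ℤ) ^ j • (FTA.of z.1 - FTA.of z.2) := by
      have h1 : Continuous fun z : X × X => (FTA.of z.1 : FTA X) :=
        FTA.continuous_of.comp continuous_fst
      have h2 : Continuous fun z : X × X => (FTA.of z.2 : FTA X) :=
        FTA.continuous_of.comp continuous_snd
      exact (h1.sub h2).zsmul _
    have h0 : (4 : ℤ) ^ j • (FTA.of x - FTA.of x) = (0 : FTA X) := by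
      rw [sub_self, smul_zero]
    rw [hVd]
    refine hc.continuousAt.preimage_mem_nhds ?_
    show N j ∈ 𝓝 ((4 : ℤ) ^ j • (FTA.of x - FTA.of x))
    rw [h0]
    exact hN j
  have hU : ∀ k : Fin n, WV (fun m => V (n * m + k.val)) ∈ 𝓝 (0 : FTA X) :=
    fun k => WV_mem_nhds fun m x => hV _ x
  have hpi : Set.univ.pi (fun k : Fin n => WV (fun m => V (n * m + k.val))) ∈
      𝓝 (0 : Fin n → FTA X) := set_pi_mem_nhds Set.finite_univ fun k _ => hU k
  refine Filter.mem_of_superset hpi ?_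
  intro u hu huF
  have hu' : ∀ k : Fin n, ∃ (S : Finset ℕ) (p q : ℕ → X),
      (∀ j ∈ S, (p j, q j) ∈ V (n * j + k.val)) ∧
        u k = ∑ j ∈ S, (FTA.of (p j) - FTA.of (q j)) := fun k => hu k (Set.mem_univ k)
  choose S p q hS hu2 using hu'
  obtain ⟨T, hT⟩ : ∃ T : Finset ℕ, T = (Finset.univ : Finset (Fin n)).biUnion
      fun k => (S k).image fun m => n * m + k.val := ⟨_, rfl⟩
  have hmod : ∀ (k : Fin n) (m : ℕ), (n * m + k.val) % n = k.val := by
    intro k m
    rw [Nat.mul_add_mod, Nat.mod_eq_of_lt k.2]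
  have hdiv : ∀ (k : Fin n) (m : ℕ), (n * m + k.val) / n = m := by
    intro k m
    rw [Nat.mul_add_div hn, Nat.div_eq_of_lt k.2, add_zero]
  have hfin : ∀ (k : Fin n) (m : ℕ),
      (⟨(n * m + k.val) % n, Nat.mod_lt _ hn⟩ : Fin n) = k := by
    intro k m
    exact Fin.ext (hmod k m)
  have hmemT : ∀ (k : Fin n) (m : ℕ), m ∈ S k → n * m + k.val ∈ T := by
    intro k m hm
    rw [hT]
    exact Finset.mem_biUnion.2 ⟨k, Finset.mem_univ k, Finset.mem_image.2 ⟨m, hm, rfl⟩⟩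
  have hexT : ∀ j ∈ T, ∃ (k : Fin n) (m : ℕ), m ∈ S k ∧ n * m + k.val = j := by
    intro j hj
    rw [hT] at hj
    obtain ⟨k, _, h1⟩ := Finset.mem_biUnion.1 hj
    obtain ⟨m, h2, h3⟩ := Finset.mem_image.1 h1
    exact ⟨k, m, h2, h3⟩
  obtain ⟨p', hp'⟩ : ∃ p' : ℕ → X, ∀ (k : Fin n) (m : ℕ), p' (n * m + k.val) = p k m := by
    refine ⟨fun j => p ⟨j % n, Nat.mod_lt j hn⟩ (j / n), fun k m => ?_⟩
    show p ⟨(n * m + k.val) % n, Nat.mod_lt _ hn⟩ ((n * m + k.val) / n) = p k m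
    rw [hfin, hdiv]
  obtain ⟨q', hq'⟩ : ∃ q' : ℕ → X, ∀ (k : Fin n) (m : ℕ), q' (n * m + k.val) = q k m := by
    refine ⟨fun j => q ⟨j % n, Nat.mod_lt j hn⟩ (j / n), fun k m => ?_⟩
    show q ⟨(n * m + k.val) % n, Nat.mod_lt _ hn⟩ ((n * m + k.val) / n) = q k m
    rw [hfin, hdiv]
  have hTup : tup n T p' q' = u := by
    funext k
    rw [hu2 k]
    unfold tup
    symm
    refine Finset.sum_bij (fun m _ => n * m + k.val) ?_ ?_ ?_ ?_
    · intro m hm
      exact Finset.mem_filter.2 ⟨hmemT k m hm, hmod k m⟩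
    · intro m _ m' _ hmm
      have h1 := congrArg (fun t => t / n) hmm
      simp only [hdiv] at h1
      exact h1
    · intro j hj
      obtain ⟨h1, h2⟩ := Finset.mem_filter.1 hj
      obtain ⟨k', m, h3, h4⟩ := hexT j h1
      have h5 : k' = k := by
        apply Fin.ext
        rw [← h2, ← h4, hmod]
      subst h5
      exact ⟨m, h3, h4⟩
    · intro m _
      rw [hp', hq']
  have hmem : ∑ j ∈ T, (4 : ℤ) ^ j • (FTA.of (p' j) - FTA.of (q' j)) ∈ (code n F)ᶜ := by
    refine hN2 T (fun j => (4 : ℤ) ^ j • (FTA.of (p' j) - FTA.of (q' j))) ?_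
    intro j hj
    obtain ⟨k, m, h3, h4⟩ := hexT j hj
    have h5 := hS k m h3
    rw [hVd] at h5
    subst h4
    show (4 : ℤ) ^ (n * m + k.val) • (FTA.of (p' (n * m + k.val)) -
      FTA.of (q' (n * m + k.val))) ∈ N (n * m + k.val)
    rw [hp', hq']
    exact h5
  exact hmem ⟨T, p', q', rfl, by rw [hTup]; exact huF⟩

end Pool.Agent.MP6fbFG
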