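import Mathlib
import Pool.Agent.Lib.MP_6fbfae_gt_FG.Nb0

/-!
# MP_6fbfae_gt, project FG: finite powers of sequential free abelian topological groups
-/

set_option autoImplicit false

open scoped Topology BigOperators
open Filter

namespace Pool.Agent.MP6fbFG

universe u

variable {X : Type u} [TopologicalSpace X]

/-- The finite powers are sequential.

Proof. `n = 0`: the space has one point. Let `0 < n` and `F` be sequentially closed and `u ∉ F`. The
translate `F' = {v | u + v ∈ F}` is sequentially closed, `0 ∉ F'`. By `code_closed` and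
`SequentialSpace (FTA X)` the code of `F'` is closed, it does not contain zero (`zero_notMem_code`),
so `nhds_of_code` gives `F'ᶜ ∈ 𝓝 0`, so `Fᶜ ∈ 𝓝 u`. So the complement of `F` is open. -/
theorem seq_pow_ab [T2Space (FTA X)] [SequentialSpace (FTA X)] (n : ℕ) :
    SequentialSpace (Fin n → FTA X) := by
  rcases Nat.eq_zero_or_pos n with rfl | hn
  · infer_instance
  rcases isEmpty_or_nonempty X with hX | hX
  · have : Subsingleton (FTA X) := subsingleton_of_empty
    infer_instance
  refine ⟨fun F hF => ?_⟩
  rw [← isOpen_compl_iff, isOpen_iff_mem_nhds]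
  intro u hu
  have h1 : IsSeqClosed {v : Fin n → FTA X | u + v ∈ F} := fun x p hx hp =>
    hF (x := fun k => u + x k) (fun k => hx k) (tendsto_const_nhds.add hp)
  have h0 : (0 : Fin n → FTA X) ∉ {v : Fin n → FTA X | u + v ∈ F} := by
    intro h
    have h' : u + 0 ∈ F := h
    rw [add_zero] at h'
    exact hu h'
  have h3 : (code n {v : Fin n → FTA X | u + v ∈ F})ᶜ ∈ 𝓝 (0 : FTA X) :=
    (code_closed h1).isClosed.isOpen_compl.mem_nhds (zero_notMem_code h0)
  have h4 := nhds_of_code hn h3
  have h5 : Tendsto (fun v : Fin n → FTA X => -u + v) (𝓝 u) (𝓝 0) := by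
    have h6 : Continuous (fun v : Fin n → FTA X => -u + v) := continuous_const.add continuous_id
    have h7 := h6.tendsto u
    rwa [neg_add_cancel] at h7
  filter_upwards [h5 h4] with v hv hv'
  refine hv ?_
  change u + (-u + v) ∈ F
  rwa [add_neg_cancel_left]

end Pool.Agent.MP6fbFG
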