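import Mathlib
import Pool.Agent.Lib.MP_6fbfae_gt_FG.Basic

/-!
# MP_6fbfae_gt, project FG: the wreath product with the group of order two
-/

set_option autoImplicit false

open scoped Topology BigOperators
open Filter

namespace Pool.Agent.MP6fbFG

universe u

/-- The wreath product of `G` with the group of order two. -/
structure Wr (G : Type*) where
  /-- first coordinate -/
  fst : G
  /-- second coordinate -/
  snd : G
  /-- whether the two coordinates are exchanged -/
  sw : Bool

namespace Wr

variable {G : Type*}

/-- The bijection with the product. -/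
def equiv (G : Type*) : Wr G ≃ G × G × Bool where
  toFun w := (w.fst, w.snd, w.sw)
  invFun z := ⟨z.1, z.2.1, z.2.2⟩
  left_inv _ := rfl
  right_inv _ := rfl

instance [Group G] : Mul (Wr G) :=
  ⟨fun a b => ⟨a.fst * (if a.sw then b.snd else b.fst), a.snd * (if a.sw then b.fst else b.snd),
    xor a.sw b.sw⟩⟩

instance [Group G] : One (Wr G) := ⟨⟨1, 1, false⟩⟩

instance [Group G] : Inv (Wr G) :=
  ⟨fun a => ⟨if a.sw then a.snd⁻¹ else a.fst⁻¹, if a.sw then a.fst⁻¹ else a.snd⁻¹, a.sw⟩⟩

private theorem wr_ext {a b : Wr G} (h1 : a.fst = b.fst) (h2 : a.snd = b.snd)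
    (h3 : a.sw = b.sw) : a = b := by
  cases a; cases b; simp_all

instance instGroup [Group G] : Group (Wr G) where
  mul_assoc a b c := by
    refine wr_ext ?_ ?_ ?_
    · show a.fst * (if a.sw then b.snd else b.fst) *
          (if xor a.sw b.sw then c.snd else c.fst) =
        a.fst * (if a.sw then b.snd * (if b.sw then c.fst else c.snd)
          else b.fst * (if b.sw then c.snd else c.fst))
      cases a.sw <;> cases b.sw <;> simp [mul_assoc]
    · show a.snd * (if a.sw then b.fst else b.snd) *
          (if xor a.sw b.sw then c.fst else c.snd) =
        a.snd * (if a.sw then b.fst * (if b.sw then c.snd else c.fst)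
          else b.snd * (if b.sw then c.fst else c.snd))
      cases a.sw <;> cases b.sw <;> simp [mul_assoc]
    · show xor (xor a.sw b.sw) c.sw = xor a.sw (xor b.sw c.sw)
      cases a.sw <;> cases b.sw <;> cases c.sw <;> rfl
  one_mul a := by
    refine wr_ext ?_ ?_ ?_
    · show (1 : G) * (if false = true then a.snd else a.fst) = a.fst
      simp
    · show (1 : G) * (if false = true then a.fst else a.snd) = a.snd
      simp
    · show xor false a.sw = a.sw
      cases a.sw <;> rfl
  mul_one a := by
    refine wr_ext ?_ ?_ ?_
    · show a.fst * (if a.sw then (1 : G) else 1) = a.fst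
      simp
    · show a.snd * (if a.sw then (1 : G) else 1) = a.snd
      simp
    · show xor a.sw false = a.sw
      cases a.sw <;> rfl
  inv_mul_cancel a := by
    refine wr_ext ?_ ?_ ?_
    · show (if a.sw then a.snd⁻¹ else a.fst⁻¹) * (if a.sw then a.snd else a.fst) = 1
      cases a.sw <;> simp
    · show (if a.sw then a.fst⁻¹ else a.snd⁻¹) * (if a.sw then a.fst else a.snd) = 1
      cases a.sw <;> simp
    · show xor a.sw a.sw = false
      cases a.sw <;> rfl

theorem mul_fst [Group G] (a b : Wr G) :
    (a * b).fst = a.fst * (if a.sw then b.snd else b.fst) := rfl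

theorem mul_snd [Group G] (a b : Wr G) :
    (a * b).snd = a.snd * (if a.sw then b.fst else b.snd) := rfl

theorem mul_sw [Group G] (a b : Wr G) : (a * b).sw = xor a.sw b.sw := rfl

theorem one_fst [Group G] : (1 : Wr G).fst = 1 := rfl

theorem one_snd [Group G] : (1 : Wr G).snd = 1 := rfl

theorem one_sw [Group G] : (1 : Wr G).sw = false := rfl

theorem inv_fst [Group G] (a : Wr G) : a⁻¹.fst = if a.sw then a.snd⁻¹ else a.fst⁻¹ := rfl

theorem inv_snd [Group G] (a : Wr G) : a⁻¹.snd = if a.sw then a.fst⁻¹ else a.snd⁻¹ := rfl

theorem inv_sw [Group G] (a : Wr G) : a⁻¹.sw = a.sw := rfl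

/-- The topology of the product (with the discrete topology on `Bool`). -/
instance instTop [TopologicalSpace G] : TopologicalSpace (Wr G) :=
  TopologicalSpace.induced (equiv G) inferInstance

private theorem continuous_equiv [TopologicalSpace G] : Continuous (equiv G) :=
  continuous_induced_dom

theorem continuous_fst [TopologicalSpace G] : Continuous (fun w : Wr G => w.fst) :=
  _root_.continuous_fst.comp continuous_equiv

theorem continuous_snd [TopologicalSpace G] : Continuous (fun w : Wr G => w.snd) :=
  _root_.continuous_fst.comp (_root_.continuous_snd.comp continuous_equiv)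

theorem continuous_sw [TopologicalSpace G] : Continuous (fun w : Wr G => w.sw) :=
  _root_.continuous_snd.comp (_root_.continuous_snd.comp continuous_equiv)

theorem continuous_mk [TopologicalSpace G] {Y : Type*} [TopologicalSpace Y] {f g : Y → G}
    {s : Y → Bool} (hf : Continuous f) (hg : Continuous g) (hs : Continuous s) :
    Continuous fun y => (⟨f y, g y, s y⟩ : Wr G) :=
  continuous_induced_rng.2 (hf.prodMk (hg.prodMk hs))

private theorem continuous_ite_bool [TopologicalSpace G] {Y : Type*} [TopologicalSpace Y]
    {f g : Y → G} {s : Y → Bool} (hf : Continuous f) (hg : Continuous g) (hs : Continuous s) :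
    Continuous fun y => if s y then f y else g y := by
  rw [continuous_iff_continuousAt]
  intro y
  have hev : ∀ᶠ z in 𝓝 y, s z = s y := ((IsLocallyConstant.iff_continuous s).2 hs).eventually_eq y
  cases hy : s y with
  | true =>
    refine (hf.continuousAt (x := y)).congr ?_
    filter_upwards [hev] with z hz
    simp [hz, hy]
  | false =>
    refine (hg.continuousAt (x := y)).congr ?_
    filter_upwards [hev] with z hz
    simp [hz, hy]

private theorem continuous_xor_bool : Continuous fun p : Bool × Bool => xor p.1 p.2 :=
  continuous_of_discreteTopology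

/-- Proof: for the components which depend on `sw` use that the sets `{w | w.sw = true}` are
clopen (`Continuous.if_const`-like, `continuous_if'`, or `IsClopen`, or: a function of `(w, b)`
with `b` in the discrete space `Bool` is continuous if it is continuous for each `b`). -/
instance instTopGroup [Group G] [TopologicalSpace G] [IsTopologicalGroup G] :
    IsTopologicalGroup (Wr G) where
  continuous_mul := by
    have h1 : Continuous fun p : Wr G × Wr G => p.1.fst :=
      continuous_fst.comp _root_.continuous_fst
    have h2 : Continuous fun p : Wr G × Wr G => p.1.snd :=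
      continuous_snd.comp _root_.continuous_fst
    have h3 : Continuous fun p : Wr G × Wr G => p.1.sw :=
      continuous_sw.comp _root_.continuous_fst
    have h4 : Continuous fun p : Wr G × Wr G => p.2.fst :=
      continuous_fst.comp _root_.continuous_snd
    have h5 : Continuous fun p : Wr G × Wr G => p.2.snd :=
      continuous_snd.comp _root_.continuous_snd
    have h6 : Continuous fun p : Wr G × Wr G => p.2.sw :=
      continuous_sw.comp _root_.continuous_snd
    exact continuous_mk (h1.mul (continuous_ite_bool h5 h4 h3))
      (h2.mul (continuous_ite_bool h4 h5 h3)) (continuous_xor_bool.comp (h3.prodMk h6))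
  continuous_inv := by
    have h1 : Continuous fun p : Wr G => p.fst := continuous_fst
    have h2 : Continuous fun p : Wr G => p.snd := continuous_snd
    have h3 : Continuous fun p : Wr G => p.sw := continuous_sw
    exact continuous_mk (continuous_ite_bool h2.inv h1.inv h3)
      (continuous_ite_bool h1.inv h2.inv h3) h3

end Wr

end Pool.Agent.MP6fbFG
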