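import Mathlib
import Pool.Agent.Lib.MP_6fbfae_gt_FG.Wr

/-!
# MP_6fbfae_gt, project FG: homomorphisms for the retraction
-/

set_option autoImplicit false

open scoped Topology BigOperators
open Filter

namespace Pool.Agent.MP6fbFG

universe u

/-- The inclusion of the product. -/
private def Ret_inc (G : Type*) [Group G] : G × G →* Wr G where
  toFun z := ⟨z.1, z.2, false⟩
  map_one' := rfl
  map_mul' _ _ := rfl

private theorem Ret_key {X : Type u} {G : Type*} [Group G] {φ : FTG X →* Wr G} {a b : X → G}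
    (h : ∀ x, φ (FTG.of x) = ⟨a x, b x, false⟩) (g : FTG X) :
    φ g = ⟨FTG.lift a g, FTG.lift b g, false⟩ := by
  have h1 : φ = (Ret_inc G).comp ((FTG.lift a).prod (FTG.lift b)) :=
    FTG.hom_ext fun x => by
      rw [h, MonoidHom.comp_apply, MonoidHom.prod_apply, FTG.lift_of, FTG.lift_of]
      rfl
  rw [h1]
  rfl

private theorem Ret_id {X : Type u} (g : FTG X) : FTG.lift (FTG.of : X → FTG X) g = g := by
  have h1 : FTG.lift (FTG.of : X → FTG X) = MonoidHom.id (FTG X) :=
    FTG.hom_ext fun x => FTG.lift_of _ x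
  rw [h1]
  rfl

private theorem Ret_wr {G : Type*} {a b : Wr G} (h1 : a.fst = b.fst) (h2 : a.snd = b.snd)
    (h3 : a.sw = b.sw) : a = b := by
  cases a
  cases b
  cases h1
  cases h2
  cases h3
  rfl

variable {X : Type u} [TopologicalSpace X]

/-- The degree: the homomorphism to `ℤ` with value `1` at the generators. -/
def dg (X : Type u) : FTG X →* Multiplicative ℤ := FTG.lift fun _ => Multiplicative.ofAdd 1

/-- Proof: `FTG.continuous_lift`, a constant map is continuous. -/
theorem continuous_dg : Continuous (dg X) :=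
  FTG.continuous_lift continuous_const

omit [TopologicalSpace X] in
private theorem Ret_dg (a : X) (g : FTG X) :
    FTG.lift (fun _ : X => FTG.of a) g = FTG.of a ^ (Multiplicative.toAdd (dg X g)) := by
  have h1 : FTG.lift (fun _ : X => FTG.of a) = (zpowersHom (FTG X) (FTG.of a)).comp (dg X) :=
    FTG.hom_ext fun x => by
      rw [FTG.lift_of, MonoidHom.comp_apply, zpowersHom_apply, dg, FTG.lift_of, toAdd_ofAdd,
        zpow_one]
  rw [h1, MonoidHom.comp_apply, zpowersHom_apply]

/-- The endomorphism `x ↦ x a`. -/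
def eta (a : X) : FTG X →* FTG X := FTG.lift fun x => FTG.of x * FTG.of a

theorem continuous_eta (a : X) : Continuous (eta a) :=
  FTG.continuous_lift (FTG.continuous_of.mul continuous_const)

/-- The homomorphism to the wreath product for the first coordinate:
`x ↦ (x a⁻¹, a; exchange)`. -/
def th1 (a : X) : FTG X →* Wr (FTG X) :=
  FTG.lift fun x => ⟨FTG.of x * (FTG.of a)⁻¹, FTG.of a, true⟩

/-- The homomorphism for the second coordinate: `x ↦ (1, x; exchange)`. -/
def th2 (X : Type u) : FTG X →* Wr (FTG X) := FTG.lift fun x => ⟨1, FTG.of x, true⟩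

theorem continuous_th1 (a : X) : Continuous (th1 a) :=
  FTG.continuous_lift (Wr.continuous_mk (FTG.continuous_of.mul continuous_const)
    continuous_const continuous_const)

theorem continuous_th2 : Continuous (th2 X) :=
  FTG.continuous_lift (Wr.continuous_mk continuous_const FTG.continuous_of continuous_const)

/-- Proof: both sides are homomorphisms to the subgroup of the elements `⟨g, h, false⟩` with first
coordinate `g`: on generators `th1 a (x a) = ⟨x a⁻¹, a, true⟩ * ⟨1, a, true⟩ = ⟨x a⁻¹ a, a, false⟩`.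
So `th1 a (eta a g) = ⟨g, _, false⟩`: compose `th1 a` and `eta a`, compare with
`FTG.lift fun x => ⟨of x, of a, false⟩`. -/
theorem th1_eta (a : X) (g : FTG X) : (th1 a (eta a g)).fst = g ∧ (th1 a (eta a g)).sw = false := by
  have h := Ret_key (φ := (th1 a).comp (eta a)) (a := FTG.of) (b := fun _ => FTG.of a)
    (fun x => by
      rw [MonoidHom.comp_apply, eta, FTG.lift_of, map_mul, th1, FTG.lift_of, FTG.lift_of]
      refine Ret_wr ?_ ?_ rfl
      · change FTG.of x * (FTG.of a)⁻¹ * FTG.of a = FTG.of x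
        rw [inv_mul_cancel_right]
      · change FTG.of a * (FTG.of a * (FTG.of a)⁻¹) = FTG.of a
        rw [mul_inv_cancel, mul_one]) g
  rw [MonoidHom.comp_apply] at h
  rw [h]
  exact ⟨Ret_id g, rfl⟩

/-- `th2 (x a) = ⟨1, x, true⟩ * ⟨1, a, true⟩ = ⟨a, x, false⟩`, so the first coordinate of
`th2 (eta a g)` is `a ^ (degree of g)`. -/
theorem th2_eta (a : X) (g : FTG X) :
    (th2 X (eta a g)).fst = FTG.of a ^ (Multiplicative.toAdd (dg X g)) ∧
      (th2 X (eta a g)).sw = false := by
  have h := Ret_key (φ := (th2 X).comp (eta a)) (a := fun _ => FTG.of a) (b := FTG.of)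
    (fun x => by
      rw [MonoidHom.comp_apply, eta, FTG.lift_of, map_mul, th2, FTG.lift_of, FTG.lift_of]
      refine Ret_wr ?_ ?_ rfl
      · exact one_mul _
      · exact mul_one _) g
  rw [MonoidHom.comp_apply] at h
  rw [h]
  exact ⟨Ret_dg a g, rfl⟩

omit [TopologicalSpace X] in
private theorem Ret_conj (a x : X) :
    (MulAut.conj (FTG.of a)).toMonoidHom.comp (eta a) (FTG.of x) = FTG.of a * FTG.of x := by
  change FTG.of a * eta a (FTG.of x) * (FTG.of a)⁻¹ = FTG.of a * FTG.of x
  rw [eta, FTG.lift_of, ← mul_assoc, mul_inv_cancel_right]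

/-- `a (x a) a⁻¹ = a x`, `th1 a (a x) = ⟨1, a, true⟩ * ⟨x a⁻¹, a, true⟩ = ⟨a, a x a⁻¹, false⟩`. -/
theorem th1_conj (a : X) (g : FTG X) :
    (th1 a (FTG.of a * eta a g * (FTG.of a)⁻¹)).fst
        = FTG.of a ^ (Multiplicative.toAdd (dg X g)) ∧
      (th1 a (FTG.of a * eta a g * (FTG.of a)⁻¹)).sw = false := by
  have h := Ret_key (φ := (th1 a).comp ((MulAut.conj (FTG.of a)).toMonoidHom.comp (eta a)))
    (a := fun _ => FTG.of a) (b := fun x => FTG.of a * (FTG.of x * (FTG.of a)⁻¹))
    (fun x => by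
      rw [MonoidHom.comp_apply, Ret_conj, map_mul, th1, FTG.lift_of, FTG.lift_of]
      refine Ret_wr ?_ ?_ rfl
      · change FTG.of a * (FTG.of a)⁻¹ * FTG.of a = FTG.of a
        rw [inv_mul_cancel_right]
      · rfl) g
  change th1 a (FTG.of a * eta a g * (FTG.of a)⁻¹) = _ at h
  rw [h]
  exact ⟨Ret_dg a g, rfl⟩

/-- `th2 (a x) = ⟨1, a, true⟩ * ⟨1, x, true⟩ = ⟨x, a, false⟩`. -/
theorem th2_conj (a : X) (g : FTG X) :
    (th2 X (FTG.of a * eta a g * (FTG.of a)⁻¹)).fst = g ∧
      (th2 X (FTG.of a * eta a g * (FTG.of a)⁻¹)).sw = false := by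
  have h := Ret_key (φ := (th2 X).comp ((MulAut.conj (FTG.of a)).toMonoidHom.comp (eta a)))
    (a := FTG.of) (b := fun _ => FTG.of a)
    (fun x => by
      rw [MonoidHom.comp_apply, Ret_conj, map_mul, th2, FTG.lift_of, FTG.lift_of]
      refine Ret_wr ?_ ?_ rfl
      · exact one_mul _
      · exact mul_one _) g
  change th2 X (FTG.of a * eta a g * (FTG.of a)⁻¹) = _ at h
  rw [h]
  exact ⟨Ret_id g, rfl⟩

end Pool.Agent.MP6fbFG
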