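import Mathlib
import Pool.Agent.Lib.MP_6fbfae_gt_FG.Ret

/-!
# MP_6fbfae_gt, project FG: the square of a free topological group is a retract of it
-/

set_option autoImplicit false

open scoped Topology BigOperators
open Filter

namespace Pool.Agent.MP6fbFG

universe u

variable {X : Type u} [TopologicalSpace X]

/-- The degree as an integer. -/
private def ret2D (g : FTG X) : ℤ := Multiplicative.toAdd (dg X g)

omit [TopologicalSpace X] in
private theorem ret2D_mul (g h : FTG X) : ret2D (g * h) = ret2D g + ret2D h := by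
  simp [ret2D]

omit [TopologicalSpace X] in
private theorem ret2D_inv (g : FTG X) : ret2D g⁻¹ = - ret2D g := by
  simp [ret2D]

omit [TopologicalSpace X] in
private theorem ret2D_zpow (a : X) (n : ℤ) : ret2D ((FTG.of a) ^ n) = n := by
  have h : dg X (FTG.of a) = Multiplicative.ofAdd 1 := FTG.lift_of _ a
  simp [ret2D, h]

omit [TopologicalSpace X] in
private theorem ret2D_of (a : X) : ret2D (FTG.of a) = 1 := by
  have h := ret2D_zpow a 1
  rwa [zpow_one] at h

omit [TopologicalSpace X] in
private theorem ret2D_eta (a : X) (g : FTG X) : ret2D (eta a g) = 2 * ret2D g := by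
  have h : (dg X).comp (eta a) = (powMonoidHom 2).comp (dg X) := by
    refine FTG.hom_ext fun x => ?_
    have h1 : eta a (FTG.of x) = FTG.of x * FTG.of a := FTG.lift_of _ x
    have h2 : ∀ x, dg X (FTG.of x) = Multiplicative.ofAdd 1 := fun x => FTG.lift_of _ x
    simp only [MonoidHom.comp_apply, h1, map_mul, h2, powMonoidHom_apply, pow_two]
  have h3 := DFunLike.congr_fun h g
  simp only [MonoidHom.comp_apply, powMonoidHom_apply] at h3
  simp [ret2D, h3]

private theorem ret2D_cont : Continuous (ret2D : FTG X → ℤ) :=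
  continuous_toAdd.comp continuous_dg

private theorem ret2_pow_cont {Y : Type*} [TopologicalSpace Y] (a : X) {f : Y → ℤ}
    (hf : Continuous f) : Continuous fun y => (FTG.of a : FTG X) ^ f y :=
  (continuous_of_discreteTopology (f := fun n : ℤ => (FTG.of a : FTG X) ^ n)).comp hf

/-- The element of degree zero. -/
private def ret2Z (a : X) (g : FTG X) : FTG X := g * FTG.of a ^ (- ret2D g)

omit [TopologicalSpace X] in
private theorem ret2Z_deg (a : X) (g : FTG X) : ret2D (ret2Z a g) = 0 := by
  rw [ret2Z, ret2D_mul, ret2D_zpow]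
  ring

private theorem ret2Z_cont (a : X) : Continuous (ret2Z a) :=
  continuous_id.mul (ret2_pow_cont a ret2D_cont.neg)

omit [TopologicalSpace X] in
private theorem ret2Z_back (a : X) (g : FTG X) : ret2Z a g * FTG.of a ^ ret2D g = g := by
  rw [ret2Z, zpow_neg, inv_mul_cancel_right]

/-- The square of `F(X)` is a retract of `F(X)`.

Proof. Let `e : ℤ × ℤ ≃ ℤ` be any bijection (`ℤ × ℤ` is countably infinite, e.g. `Equiv` from
`Denumerable`), `δ` the degree. Define `σ (g, h) = eta g₀ * (a * eta h₀ * a⁻¹) * a ^ (2 * e (δ g,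
δ h))`, `g₀ = g * a ^ (- δ g)`, `h₀ = h * a ^ (- δ h)` (of degree zero), and for `z` of degree `2
* k`, `(i, j) = e.symm k`, `z₀ = z * a ^ (- 2 * k)`: `ρ z = ((th1 a z₀).fst * a ^ i, (th2 X
z₀).fst * a ^ j)`; for `z` of odd degree use the same formula with `k = (δ z) / 2`. Continuity:
the degree is a continuous map to a discrete space, so `z ↦ a ^ f (δ z)` is continuous for every
function `f : ℤ → ℤ`. The degree of `eta g` is twice the degree of `g`, so `eta g₀` and `a * eta
h₀ * a⁻¹` have degree zero, and `z₀ = eta g₀ * (a * eta h₀ * a⁻¹)` for `z = σ (g, h)`; by the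
lemmas above (`sw = false`, so the first coordinates multiply) `(th1 a z₀).fst = g₀ * a ^ 0`,
`(th2 X z₀).fst = a ^ 0 * h₀`. -/
theorem exists_retract (a : X) : ∃ (ρ : FTG X → FTG X × FTG X) (σ : FTG X × FTG X → FTG X),
    Continuous ρ ∧ Continuous σ ∧ ∀ z, ρ (σ z) = z := by
  obtain ⟨e⟩ : Nonempty (ℤ × ℤ ≃ ℤ) := ⟨(Denumerable.eqv (ℤ × ℤ)).trans (Denumerable.eqv ℤ).symm⟩
  let k : FTG X → ℤ := fun z => ret2D z / 2
  let z0 : FTG X → FTG X := fun z => z * FTG.of a ^ (-(2 * k z))
  have hk : Continuous k :=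
    (continuous_of_discreteTopology (f := fun n : ℤ => n / 2)).comp ret2D_cont
  have hz0 : Continuous z0 := continuous_id.mul (ret2_pow_cont a
    ((continuous_of_discreteTopology (f := fun n : ℤ => -(2 * n))).comp hk))
  let ρ : FTG X → FTG X × FTG X := fun z => ((th1 a (z0 z)).fst * FTG.of a ^ (e.symm (k z)).1,
    (th2 X (z0 z)).fst * FTG.of a ^ (e.symm (k z)).2)
  let σ : FTG X × FTG X → FTG X := fun p => eta a (ret2Z a p.1) *
    (FTG.of a * eta a (ret2Z a p.2) * (FTG.of a)⁻¹) * FTG.of a ^ (2 * e (ret2D p.1, ret2D p.2))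
  refine ⟨ρ, σ, ?_, ?_, ?_⟩
  · refine Continuous.prodMk ?_ ?_
    · refine ((Wr.continuous_fst.comp (continuous_th1 a)).comp hz0).mul (ret2_pow_cont a ?_)
      exact (continuous_of_discreteTopology (f := fun n : ℤ => (e.symm n).1)).comp hk
    · refine ((Wr.continuous_fst.comp continuous_th2).comp hz0).mul (ret2_pow_cont a ?_)
      exact (continuous_of_discreteTopology (f := fun n : ℤ => (e.symm n).2)).comp hk
  · have h1 : Continuous fun p : FTG X × FTG X => eta a (ret2Z a p.1) :=
      (continuous_eta a).comp ((ret2Z_cont a).comp continuous_fst)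
    have h2 : Continuous fun p : FTG X × FTG X => eta a (ret2Z a p.2) :=
      (continuous_eta a).comp ((ret2Z_cont a).comp continuous_snd)
    have h3 : Continuous fun p : FTG X × FTG X => (ret2D p.1, ret2D p.2) :=
      (ret2D_cont.comp continuous_fst).prodMk (ret2D_cont.comp continuous_snd)
    refine (h1.mul ((continuous_const.mul h2).mul continuous_const)).mul (ret2_pow_cont a ?_)
    exact (continuous_of_discreteTopology (f := fun n : ℤ × ℤ => 2 * e n)).comp h3
  · rintro ⟨g, h⟩
    have d1 : ret2D (σ (g, h)) = 2 * e (ret2D g, ret2D h) := by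
      simp only [σ, ret2D_mul, ret2D_eta, ret2D_inv, ret2Z_deg, ret2D_of, ret2D_zpow]
      ring
    have hkz : k (σ (g, h)) = e (ret2D g, ret2D h) := by
      simp only [k, d1]
      omega
    have hz : z0 (σ (g, h)) =
        eta a (ret2Z a g) * (FTG.of a * eta a (ret2Z a h) * (FTG.of a)⁻¹) := by
      simp only [z0, hkz, σ]
      rw [zpow_neg, mul_inv_cancel_right]
    have t1 := th1_eta a (ret2Z a g)
    have t2 := th2_eta a (ret2Z a g)
    have t3 := th1_conj a (ret2Z a h)
    have t4 := th2_conj a (ret2Z a h)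
    have e1 : Multiplicative.toAdd (dg X (ret2Z a g)) = 0 := ret2Z_deg a g
    have e2 : Multiplicative.toAdd (dg X (ret2Z a h)) = 0 := ret2Z_deg a h
    rw [e1, zpow_zero] at t2
    rw [e2, zpow_zero] at t3
    have f1 : (th1 a (z0 (σ (g, h)))).fst = ret2Z a g := by
      rw [hz, map_mul, Wr.mul_fst, t1.1, t1.2, t3.1]
      simp
    have f2 : (th2 X (z0 (σ (g, h)))).fst = ret2Z a h := by
      rw [hz, map_mul, Wr.mul_fst, t2.1, t2.2, t4.1]
      simp
    show ((th1 a (z0 (σ (g, h)))).fst * FTG.of a ^ (e.symm (k (σ (g, h)))).1,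
      (th2 X (z0 (σ (g, h)))).fst * FTG.of a ^ (e.symm (k (σ (g, h)))).2) = (g, h)
    rw [f1, f2, hkz, Equiv.symm_apply_apply, ret2Z_back, ret2Z_back]

end Pool.Agent.MP6fbFG
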