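import Mathlib
import Pool.Agent.Lib.MP_6fbfae_gt_FG.Ret2

/-!
# MP_6fbfae_gt, project FG: finite powers of sequential free topological groups
-/

set_option autoImplicit false

open scoped Topology BigOperators
open Filter

namespace Pool.Agent.MP6fbFG

universe u

variable {X : Type u} [TopologicalSpace X]

/-- A continuous map with a continuous right inverse preserves sequentiality. Proof: it is a
quotient map (`Topology.IsQuotientMap` from a continuous right inverse),
`IsQuotientMap.sequentialSpace`. -/
theorem seq_of_retract {Y Z : Type*} [TopologicalSpace Y] [TopologicalSpace Z] [SequentialSpace Y]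
    {ρ : Y → Z} {σ : Z → Y} (hρ : Continuous ρ) (hσ : Continuous σ) (h : ∀ z, ρ (σ z) = z) :
    SequentialSpace Z := by
  have hq : Topology.IsQuotientMap ρ := Topology.IsQuotientMap.of_inverse hσ hρ h
  exact hq.sequentialSpace

/-- All finite powers are retracts. Proof: induction on `n`: `n = 0`: one point; step:
`Fin (n + 1) → Y` is homeomorphic to `Y × (Fin n → Y)` (`Fin.consEquiv`, `Fin.cons`,
`Fin.tail`), a retract of `Y × Y`, a retract of `Y`. -/
theorem retract_pow {Y : Type*} [TopologicalSpace Y] [Nonempty Y]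
    (h : ∃ (ρ : Y → Y × Y) (σ : Y × Y → Y), Continuous ρ ∧ Continuous σ ∧ ∀ z, ρ (σ z) = z)
    (n : ℕ) : ∃ (ρ : Y → (Fin n → Y)) (σ : (Fin n → Y) → Y),
      Continuous ρ ∧ Continuous σ ∧ ∀ z, ρ (σ z) = z := by
  obtain ⟨ρ, σ, hρ, hσ, hz⟩ := h
  induction n with
  | zero =>
    refine ⟨fun _ => Fin.elim0, fun _ => Classical.arbitrary Y, continuous_const,
      continuous_const, fun z => ?_⟩
    funext i
    exact i.elim0
  | succ n ih =>
    obtain ⟨ρ', σ', hρ', hσ', hz'⟩ := ih
    refine ⟨fun y => Fin.cons (ρ y).1 (ρ' (ρ y).2), fun z => σ (z 0, σ' (Fin.tail z)), ?_, ?_,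
      fun z => ?_⟩
    · refine continuous_pi fun i => ?_
      refine Fin.cases ?_ (fun j => ?_) i
      · simp only [Fin.cons_zero]
        exact continuous_fst.comp hρ
      · simp only [Fin.cons_succ]
        exact (continuous_apply j).comp (hρ'.comp (continuous_snd.comp hρ))
    · refine hσ.comp ((continuous_apply 0).prodMk (hσ'.comp ?_))
      exact continuous_pi fun i => continuous_apply i.succ
    · show (Fin.cons (ρ (σ (z 0, σ' (Fin.tail z)))).1
        (ρ' (ρ (σ (z 0, σ' (Fin.tail z)))).2) : Fin (n + 1) → Y) = z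
      rw [hz, hz']
      exact Fin.cons_self_tail z

/-- Proof: if `X` is empty, `FTG X` has one element. Otherwise `exists_retract`, `retract_pow`. -/
theorem seq_pow_grp [SequentialSpace (FTG X)] (n : ℕ) : SequentialSpace (Fin n → FTG X) := by
  rcases isEmpty_or_nonempty X with hX | ⟨⟨a⟩⟩
  · have : Subsingleton (FTG X) := inferInstanceAs (Subsingleton (FreeGroup X))
    obtain ⟨ρ, σ, hρ, hσ, hz⟩ := retract_pow (Y := FTG X)
      ⟨fun y => (y, y), fun z => z.1, continuous_id.prodMk continuous_id, continuous_fst,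
        fun z => Subsingleton.elim _ _⟩ n
    exact seq_of_retract hρ hσ hz
  · obtain ⟨ρ, σ, hρ, hσ, hz⟩ := retract_pow (Y := FTG X) (exists_retract a) n
    exact seq_of_retract hρ hσ hz

end Pool.Agent.MP6fbFG
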