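import Mathlib
import Pool.Agent.Lib.MP_6fbfae_gt_FG.Defs

/-!
# MP_6fbfae_gt, project FG: closed subspaces and open quotients
-/

set_option autoImplicit false

open scoped Topology BigOperators
open Filter

namespace Pool.Agent.MP6fbFG

universe u

/-- Closed subspaces of sequential spaces are sequential. -/
theorem seq_of_closedEmb {Y Z : Type*} [TopologicalSpace Y] [TopologicalSpace Z]
    [SequentialSpace Y] {f : Z → Y} (hf : Topology.IsClosedEmbedding f) : SequentialSpace Z := by
  refine ⟨fun s hs => ?_⟩
  rw [hf.isClosed_iff_image_isClosed]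
  refine IsSeqClosed.isClosed fun x p hx hp => ?_
  choose z hz hzx using hx
  have hpr : p ∈ Set.range f :=
    hf.isClosed_range.mem_of_tendsto hp (Eventually.of_forall fun n => ⟨z n, hzx n⟩)
  obtain ⟨w, rfl⟩ := hpr
  refine ⟨w, hs hz ?_, rfl⟩
  rw [hf.isInducing.tendsto_nhds_iff]
  have e : f ∘ z = x := funext hzx
  rw [e]
  exact hp

/-- Proof: the power of the inclusion of the closed set `C` is a closed embedding of `Fin n → C`
into `Fin n → Φ`; the power of the open quotient map `q` is an open quotient map
(`IsOpenQuotientMap.piMap`). -/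
theorem seq_pow_sub {Φ G : Type*} [TopologicalSpace Φ] [TopologicalSpace G]
    (h : ∀ n : ℕ, SequentialSpace (Fin n → Φ)) {C : Set Φ} (hC : IsClosed C) {q : C → G}
    (hq : IsOpenQuotientMap q) (n : ℕ) : SequentialSpace (Fin n → G) := by
  haveI := h n
  haveI : SequentialSpace (Fin n → C) :=
    seq_of_closedEmb (f := Pi.map fun _ : Fin n => ((↑) : C → Φ))
      (Topology.IsClosedEmbedding.piMap fun _ => hC.isClosedEmbedding_subtypeVal)
  have h1 : IsOpenQuotientMap (Pi.map fun _ : Fin n => q) :=
    IsOpenQuotientMap.piMap fun _ => hq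
  exact h1.isQuotientMap.sequentialSpace

/-- Proof: `Fin 2 → G` is homeomorphic to `G × G`. -/
theorem seq_prod_of_pow {G : Type*} [TopologicalSpace G] (h : SequentialSpace (Fin 2 → G)) :
    SequentialSpace (G × G) := by
  exact (Homeomorph.piFinTwo fun _ => G).isQuotientMap.sequentialSpace

end Pool.Agent.MP6fbFG
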