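import Mathlib
import Pool.Agent.Lib.MP_6fbfae_gt_FG.AbMain
import Pool.Agent.Lib.MP_6fbfae_gt_FG.RetPow
import Pool.Agent.Lib.MP_6fbfae_gt_FG.Sub

/-!
# MP_6fbfae_gt, project FG: the theorem

No quotient group of a closed subgroup of a finite power of a sequential free topological group,
abelian or not, is a group as in the question: all finite powers of these groups are sequential.
-/

set_option autoImplicit false

open scoped Topology BigOperators
open Filter

namespace Pool.Agent.MP6fbFG

universe u v

/-- Finite powers of finite powers. -/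
theorem seq_pow_pow {Φ : Type*} [TopologicalSpace Φ] (h : ∀ n : ℕ, SequentialSpace (Fin n → Φ))
    (m n : ℕ) : SequentialSpace (Fin n → Fin m → Φ) := by
  have h1 : SequentialSpace (Fin (n * m) → Φ) := h (n * m)
  refine seq_of_retract (Y := Fin (n * m) → Φ) (Z := Fin n → Fin m → Φ)
    (ρ := fun f i j => f (finProdFinEquiv (i, j)))
    (σ := fun g k => g (finProdFinEquiv.symm k).1 (finProdFinEquiv.symm k).2) ?_ ?_ ?_
  · exact continuous_pi fun i => continuous_pi fun j => continuous_apply _
  · exact continuous_pi fun k => (continuous_apply _).comp (continuous_apply _)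
  · intro g
    funext i j
    simp

/-- The nonabelian case. -/
theorem main_grp (X : Type u) [TopologicalSpace X] (hX : SequentialSpace (FTG X)) (m : ℕ)
    (C : Subgroup (Fin m → FTG X)) (hC : IsClosed (C : Set (Fin m → FTG X))) (G : Type v)
    [Group G] [TopologicalSpace G] [IsTopologicalGroup G] (q : C →* G)
    (hq : Topology.IsQuotientMap q) :
    SequentialSpace (G × G) ∧ ∀ n : ℕ, SequentialSpace (Fin n → G) := by
  have h1 : IsOpenQuotientMap q := MonoidHom.isOpenQuotientMap_of_isQuotientMap hq
  have h : ∀ n : ℕ, SequentialSpace (Fin n → G) := fun n =>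
    seq_pow_sub (Φ := Fin m → FTG X) (C := (C : Set (Fin m → FTG X))) (q := q)
      (seq_pow_pow (fun k => seq_pow_grp k) m) hC h1 n
  exact ⟨seq_prod_of_pow (h 2), h⟩

/-- The abelian case. -/
theorem main_ab (X : Type u) [TopologicalSpace X] (hT : T2Space (FTA X))
    (hX : SequentialSpace (FTA X)) (m : ℕ)
    (C : AddSubgroup (Fin m → FTA X)) (hC : IsClosed (C : Set (Fin m → FTA X))) (G : Type v)
    [AddGroup G] [TopologicalSpace G] [IsTopologicalAddGroup G] (q : C →+ G)
    (hq : Topology.IsQuotientMap q) :
    SequentialSpace (G × G) ∧ ∀ n : ℕ, SequentialSpace (Fin n → G) := by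
  have h1 : IsOpenQuotientMap q := AddMonoidHom.isOpenQuotientMap_of_isQuotientMap hq
  have h : ∀ n : ℕ, SequentialSpace (Fin n → G) := fun n =>
    seq_pow_sub (Φ := Fin m → FTA X) (C := (C : Set (Fin m → FTA X))) (q := q)
      (seq_pow_pow (fun k => seq_pow_ab k) m) hC h1 n
  exact ⟨seq_prod_of_pow (h 2), h⟩

end Pool.Agent.MP6fbFG
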