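import Mathlib
import Pool.Agent.Lib.MP_6fbfae_gt_FG.Defs

/-!
# MP_6fbfae_gt, project FG: the conclusions of the hand-in
-/

set_option autoImplicit false

open scoped Topology

namespace Pool.Agent.MP6fbFG

universe u v

/-- Every topological group `G` which is the image of a closed subgroup of a finite power of `Φ`
under a homomorphism that is a quotient map has a sequential square, and all finite powers of `G`
are sequential. -/
def SeqPowers (Φ : Type u) [Group Φ] [TopologicalSpace Φ] : Prop :=
  ∀ (m : ℕ) (C : Subgroup (Fin m → Φ)), IsClosed (C : Set (Fin m → Φ)) →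
    ∀ (G : Type v) [Group G] [TopologicalSpace G] [IsTopologicalGroup G] (q : C →* G),
      Topology.IsQuotientMap q →
      SequentialSpace (G × G) ∧ ∀ n : ℕ, SequentialSpace (Fin n → G)

/-- The same for groups written additively. -/
def SeqPowersAdd (Φ : Type u) [AddGroup Φ] [TopologicalSpace Φ] : Prop :=
  ∀ (m : ℕ) (C : AddSubgroup (Fin m → Φ)), IsClosed (C : Set (Fin m → Φ)) →
    ∀ (G : Type v) [AddGroup G] [TopologicalSpace G] [IsTopologicalAddGroup G] (q : C →+ G),
      Topology.IsQuotientMap q →
      SequentialSpace (G × G) ∧ ∀ n : ℕ, SequentialSpace (Fin n → G)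

end Pool.Agent.MP6fbFG
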